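import Mathlib
import Pool.Agent.Helper1_PGH.DerivExt

/-! # Wronskians in a differential field -/

namespace PGH

section Wron

variable {E : Type*} [Field E] (D : Derivation ℤ E E)

/-- matrix of iterated derivatives -/
def WM {m : ℕ} (v : Fin m → E) : Matrix (Fin m) (Fin m) E :=
  Matrix.of fun l i => (D : E → E)^[l] (v i)

/-- the Wronskian -/
noncomputable def Wr {m : ℕ} (v : Fin m → E) : E := (WM D v).det

theorem WM_apply {m : ℕ} (v : Fin m → E) (l i : Fin m) : WM D v l i = (D : E → E)^[l] (v i) := rfl

theorem iter_zero (l : ℕ) : (D : E → E)^[l] 0 = 0 := by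
  induction l with
  | zero => rfl
  | succ l ih => rw [Function.iterate_succ_apply', ih, map_zero]

theorem iter_add (l : ℕ) (a b : E) :
    (D : E → E)^[l] (a + b) = (D : E → E)^[l] a + (D : E → E)^[l] b := by
  induction l generalizing a b with
  | zero => rfl
  | succ l ih => rw [Function.iterate_succ_apply', Function.iterate_succ_apply',
      Function.iterate_succ_apply', ih, map_add]

theorem iter_neg (l : ℕ) (a : E) : (D : E → E)^[l] (-a) = -(D : E → E)^[l] a := by
  induction l generalizing a with
  | zero => rfl
  | succ l ih => rw [Function.iterate_succ_apply', Function.iterate_succ_apply', ih, map_neg]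

theorem iter_sum {ι : Type*} (s : Finset ι) (l : ℕ) (f : ι → E) :
    (D : E → E)^[l] (∑ i ∈ s, f i) = ∑ i ∈ s, (D : E → E)^[l] (f i) := by
  classical
  induction s using Finset.induction_on with
  | empty => rw [Finset.sum_empty, Finset.sum_empty, iter_zero]
  | insert a s ha ih => rw [Finset.sum_insert ha, Finset.sum_insert ha, iter_add, ih]

theorem iter_const_mul {c : E} (hc : D c = 0) (l : ℕ) (a : E) :
    (D : E → E)^[l] (c * a) = c * (D : E → E)^[l] a := by
  induction l generalizing a with
  | zero => rfl
  | succ l ih =>
    rw [Function.iterate_succ_apply', Function.iterate_succ_apply', ih, D.leibniz, hc]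
    simp

/-- **Wronskian criterion.** -/
theorem Wr_ne_zero {m : ℕ} (v : Fin m → E)
    (h : ∀ c : Fin m → E, (∀ i, D (c i) = 0) → ∑ i, c i * v i = 0 → c = 0) : Wr D v ≠ 0 := by
  induction m with
  | zero => unfold Wr; rw [Matrix.det_isEmpty]; exact one_ne_zero
  | succ m ih =>
    -- the first `m` elements
    have h1 : Wr D (fun i : Fin m => v i.castSucc) ≠ 0 := by
      apply ih
      intro c hc hsum
      have h2 := h (Fin.snoc c 0) (by
        intro i
        refine Fin.lastCases ?_ (fun j => ?_) i
        · simp
        · simp [hc j]) (by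
        rw [Fin.sum_univ_castSucc]
        simp [hsum])
      funext i
      have h3 := congrFun h2 i.castSucc
      simpa using h3
    intro h0
    obtain ⟨a, ha0, ha⟩ := Matrix.exists_mulVec_eq_zero_iff.2 h0
    have hrel : ∀ l : Fin (m + 1), ∑ i, a i * (D : E → E)^[l] (v i) = 0 := by
      intro l
      have h8 := congrFun ha l
      rw [Matrix.mulVec, dotProduct, Pi.zero_apply] at h8
      refine Eq.trans ?_ h8
      exact Finset.sum_congr rfl (fun i _ => mul_comm _ _)
    -- nonsingularity of the first `m` columns
    have hns : ∀ b : Fin m → E, (∀ l : Fin m, ∑ i, b i * (D : E → E)^[l] (v i.castSucc) = 0) →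
        b = 0 := by
      intro b hb
      by_contra hb0
      apply h1
      apply Matrix.exists_mulVec_eq_zero_iff.1
      refine ⟨b, hb0, ?_⟩
      funext l
      rw [Matrix.mulVec, dotProduct, Pi.zero_apply, ← hb l]
      exact Finset.sum_congr rfl (fun i _ => mul_comm _ _)
    have hlast : a (Fin.last m) ≠ 0 := by
      intro hl
      apply ha0
      have h2 := hns (fun i => a i.castSucc) (by
        intro l
        have h3 := hrel l.castSucc
        rw [Fin.sum_univ_castSucc, hl, zero_mul, add_zero] at h3
        exact h3)
      funext i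
      refine Fin.lastCases ?_ (fun j => ?_) i
      · exact hl
      · exact congrFun h2 j
    set b : Fin (m + 1) → E := fun i => a i / a (Fin.last m) with hb
    have hblast : b (Fin.last m) = 1 := by rw [hb]; exact div_self hlast
    have hbrel : ∀ l : Fin (m + 1), ∑ i, b i * (D : E → E)^[l] (v i) = 0 := by
      intro l
      have h2 : ∑ i, b i * (D : E → E)^[l] (v i) =
          (∑ i, a i * (D : E → E)^[l] (v i)) / a (Fin.last m) := by
        rw [Finset.sum_div]
        exact Finset.sum_congr rfl (fun i _ => by rw [hb]; ring)
      rw [h2, hrel, zero_div]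
    have hDb : (fun i : Fin m => D (b i.castSucc)) = 0 := by
      apply hns
      intro l
      have h2 := congrArg D (hbrel l.castSucc)
      rw [map_zero, map_sum] at h2
      have h3 : ∀ i, D (b i * (D : E → E)^[(l.castSucc : ℕ)] (v i)) =
          D (b i) * (D : E → E)^[(l : ℕ)] (v i) + b i * (D : E → E)^[(l.succ : ℕ)] (v i) := by
        intro i
        rw [D.leibniz, smul_eq_mul, smul_eq_mul, Fin.val_succ, Function.iterate_succ_apply',
          Fin.val_castSucc]
        ring
      simp_rw [h3] at h2
      rw [Finset.sum_add_distrib, hbrel, add_zero, Fin.sum_univ_castSucc, hblast] at h2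
      have h4 : D (1 : E) = 0 := D.map_one_eq_zero
      rw [h4, zero_mul, add_zero] at h2
      exact h2
    have h5 := h b (by
      intro i
      refine Fin.lastCases ?_ (fun j => ?_) i
      · rw [hblast]; exact D.map_one_eq_zero
      · exact congrFun hDb j) (by
      have := hbrel 0
      simpa using this)
    have h6 := congrFun h5 (Fin.last m)
    rw [hblast] at h6
    exact one_ne_zero h6

/-- omitting one of the `q + 2` elements of a family with sum zero -/
theorem Wr_omit {q : ℕ} (v : Fin (q + 1) → E) (w : E) (h : w + ∑ i, v i = 0) (j : Fin (q + 1)) :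
    Wr D (Function.update v j w) = - Wr D v := by
  unfold Wr
  have h1 : WM D (Function.update v j w) =
      (WM D v).updateCol j (fun k => ∑ i, (fun _ => (-1 : E)) i • WM D v k i) := by
    ext l i
    rw [Matrix.updateCol_apply]
    by_cases hi : i = j
    · subst hi
      rw [if_pos rfl, WM_apply, Function.update_self]
      have hw : w = -∑ i, v i := eq_neg_of_add_eq_zero_left h
      rw [hw, iter_neg, iter_sum, ← Finset.sum_neg_distrib]
      exact Finset.sum_congr rfl (fun i _ => by rw [WM_apply]; simp)
    · rw [if_neg hi, WM_apply, WM_apply, Function.update_of_ne hi]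
  rw [h1, Matrix.det_updateCol_sum]
  simp

/-- Leibniz rule for iterated derivatives, triangular form. -/
theorem exists_tri (y : E) : ∃ T : ℕ → ℕ → E, (∀ l a, l < a → T l a = 0) ∧ (∀ l, T l l = y) ∧
    ∀ l z, (D : E → E)^[l] (y * z) = ∑ a ∈ Finset.range (l + 1), T l a * (D : E → E)^[a] z := by
  let T : ℕ → ℕ → E := fun l => Nat.rec (fun a => if a = 0 then y else 0)
    (fun _ t a => D (t a) + if a = 0 then 0 else t (a - 1)) l
  have hT0 : ∀ a, T 0 a = if a = 0 then y else 0 := fun a => rfl
  have hTs : ∀ l a, T (l + 1) a = D (T l a) + if a = 0 then 0 else T l (a - 1) := fun l a => rfl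
  have h1 : ∀ l a, l < a → T l a = 0 := by
    intro l
    induction l with
    | zero => intro a ha; rw [hT0, if_neg (by omega)]
    | succ l ih =>
      intro a ha
      rw [hTs, ih a (by omega), if_neg (by omega), ih (a - 1) (by omega)]
      simp
  refine ⟨T, h1, ?_, ?_⟩
  · intro l
    induction l with
    | zero => rw [hT0, if_pos rfl]
    | succ l ih => rw [hTs, h1 l (l + 1) (by omega), if_neg (by omega)]; simpa using ih
  · intro l
    induction l with
    | zero => intro z; simp [hT0]
    | succ l ih =>
      intro z
      rw [Function.iterate_succ_apply', ih, map_sum]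
      have h2 : ∀ a, D (T l a * (D : E → E)^[a] z) =
          D (T l a) * (D : E → E)^[a] z + T l a * (D : E → E)^[a + 1] z := by
        intro a
        rw [D.leibniz, smul_eq_mul, smul_eq_mul, Function.iterate_succ_apply']
        ring
      simp_rw [h2]
      rw [Finset.sum_add_distrib]
      have h3 : ∑ a ∈ Finset.range (l + 1 + 1), T (l + 1) a * (D : E → E)^[a] z =
          ∑ a ∈ Finset.range (l + 1 + 1), D (T l a) * (D : E → E)^[a] z +
          ∑ a ∈ Finset.range (l + 1 + 1), (if a = 0 then 0 else T l (a - 1)) * (D : E → E)^[a] z := by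
        rw [← Finset.sum_add_distrib]
        exact Finset.sum_congr rfl (fun a _ => by rw [hTs]; ring)
      rw [h3, Finset.sum_range_succ _ (l + 1), h1 l (l + 1) (by omega), map_zero, zero_mul, add_zero]
      congr 1
      rw [Finset.sum_range_succ' _ (l + 1)]
      simp

theorem Wr_mul {m : ℕ} (y : E) (z : Fin m → E) : Wr D (fun i => y * z i) = y ^ m * Wr D z := by
  obtain ⟨T, h1, h2, h3⟩ := exists_tri D y
  unfold Wr
  have h4 : WM D (fun i => y * z i) = (Matrix.of fun l a : Fin m => T l a) * WM D z := by
    ext l i
    rw [Matrix.mul_apply, WM_apply, h3]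
    have h5 : ∑ a : Fin m, (Matrix.of fun l a : Fin m => T l a) l a * WM D z a i =
        ∑ a ∈ Finset.range m, T l a * (D : E → E)^[a] (z i) := by
      rw [← Fin.sum_univ_eq_sum_range (fun a => T l a * (D : E → E)^[a] (z i)) m]
      rfl
    rw [h5]
    apply Finset.sum_subset
    · intro a ha
      rw [Finset.mem_range] at ha ⊢
      omega
    · intro a _ ha
      rw [Finset.mem_range] at ha
      rw [h1 l a (by omega), zero_mul]
  rw [h4, Matrix.det_mul]
  congr 1
  rw [Matrix.det_of_isLowerTriangular]
  · simp [h2]
  · intro i j hij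
    exact h1 _ _ hij

end Wron

end PGH
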