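import Mathlib
import Pool.Agent.Helper1_PGH.Deriv
import Pool.Agent.Helper97_PGH.Wron

/-! # Local bounds for Wronskians -/

open WithZero

namespace PGH

section Local

variable {L E : Type*} [Field L] [Field E] [Algebra L E] {P : Place L E} {D : Derivation ℤ E E}

theorem Place.Ge.prod {ι : Type*} {P : Place L E} (s : Finset ι) (n : ι → ℤ) (f : ι → E)
    (h : ∀ i ∈ s, P.Ge (n i) (f i)) : P.Ge (∑ i ∈ s, n i) (∏ i ∈ s, f i) := by
  classical
  induction s using Finset.induction_on with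
  | empty =>
    rw [Finset.sum_empty, Finset.prod_empty, ← map_one (algebraMap L E)]
    exact P.ge_const 1
  | insert a s ha ih =>
    rw [Finset.sum_insert ha, Finset.prod_insert ha]
    exact (h a (Finset.mem_insert_self _ _)).mul (ih (fun i hi => h i (Finset.mem_insert_of_mem hi)))

/-- order of a determinant, given lower bounds for its entries -/
theorem Place.Ge.det {m : ℕ} {P : Place L E} (A : Matrix (Fin m) (Fin m) E) (n : ℤ)
    (h : ∀ σ : Equiv.Perm (Fin m), P.Ge n (∏ i, A (σ i) i)) : P.Ge n A.det := by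
  rw [Matrix.det_apply]
  apply Place.Ge.sum
  intro σ _
  have h1 : P.Ge 0 (((Equiv.Perm.sign σ : ℤˣ) : ℤ) : E) := P.ge_int _
  rw [Units.smul_def, zsmul_eq_mul]
  exact h1.mul' (h σ) (by omega)

/-- iterates of a derivation with a pole -/
theorem DGe.iter {c : ℕ} (h : DGe P D (-(c : ℤ))) {n : ℤ} {y : E} (hy : P.Ge n y) (l : ℕ) :
    P.Ge (n - l * (1 + c)) ((D : E → E)^[l] y) := by
  induction l with
  | zero => simpa using hy
  | succ l ih =>
    rw [Function.iterate_succ_apply']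
    refine (h.ge ih).mono ?_
    push_cast
    linarith

/-- iterates of a regular derivation -/
theorem DGe.iter_zero (h : DGe P D 0) {y : E} (hy : P.Ge 0 y) (l : ℕ) :
    P.Ge 0 ((D : E → E)^[l] y) := by
  induction l with
  | zero => exact hy
  | succ l ih => rw [Function.iterate_succ_apply']; exact h _ ih

theorem DGe.iter_reg (h : DGe P D 0) {e : ℤ} (he : 0 ≤ e) {y : E} (hy : P.Ge e y) (q l : ℕ)
    (hl : l ≤ q) : P.Ge (e - min e q) ((D : E → E)^[l] y) := by
  have h1 : P.Ge (e - l) ((D : E → E)^[l] y) := by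
    have := DGe.iter (c := 0) (by simpa using h) hy l
    simpa using this
  have h2 := h.iter_zero (hy.mono he) l
  rcases le_total e q with h3 | h3
  · rw [min_eq_left h3]; simpa using h2
  · rw [min_eq_right h3]
    exact h1.mono (by omega)

theorem DGe.iter_static (h : DGe P D 0) (h' : ∀ y, P.Ge 1 y → P.Ge 1 (D y)) {n : ℤ} {y : E}
    (hy : P.Ge n y) (l : ℕ) : P.Ge n ((D : E → E)^[l] y) := by
  induction l with
  | zero => exact hy
  | succ l ih => rw [Function.iterate_succ_apply']; exact h.ge_static h' ih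

/-- crude bound -/
theorem Wr_ge_crude {m : ℕ} {c : ℕ} (h : DGe P D (-(c : ℤ))) (v : Fin m → E) (n : Fin m → ℤ)
    (hv : ∀ i, P.Ge (n i) (v i)) : P.Ge (∑ i, n i - m * m * (1 + c)) (Wr D v) := by
  apply Place.Ge.det
  intro σ
  refine (Place.Ge.prod Finset.univ (fun i => n i - (σ i : ℕ) * (1 + c)) _
    (fun i _ => h.iter (hv i) _)).mono ?_
  rw [Finset.sum_sub_distrib]
  have h1 : ∑ i : Fin m, ((σ i : ℕ) : ℤ) * (1 + c) ≤ ∑ _i : Fin m, (m : ℤ) * (1 + c) := by
    apply Finset.sum_le_sum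
    intro i _
    have : ((σ i : ℕ) : ℤ) ≤ m := by exact_mod_cast (σ i).2.le
    have h0 : (0 : ℤ) ≤ 1 + c := by positivity
    exact mul_le_mul_of_nonneg_right this h0
  rw [Finset.sum_const, Finset.card_univ, Fintype.card_fin, nsmul_eq_mul] at h1
  linarith

/-- static places -/
theorem Wr_ge_static {m : ℕ} (h : DGe P D 0) (h' : ∀ y, P.Ge 1 y → P.Ge 1 (D y))
    (v : Fin m → E) (n : Fin m → ℤ) (hv : ∀ i, P.Ge (n i) (v i)) : P.Ge (∑ i, n i) (Wr D v) := by
  apply Place.Ge.det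
  intro σ
  exact Place.Ge.prod Finset.univ n _ (fun i _ => h.iter_static h' (hv i) _)

/-- truncated bound at a regular place -/
theorem Wr_ge_reg {q : ℕ} (h : DGe P D 0) (v : Fin (q + 1) → E) (n0 : ℤ) (e : Fin (q + 1) → ℤ)
    (he : ∀ i, 0 ≤ e i) (hv : ∀ i, P.Ge (n0 + e i) (v i)) :
    P.Ge (∑ i, (n0 + e i - min (e i) q)) (Wr D v) := by
  obtain ⟨u, hu0, hu⟩ := P.exists_unif
  have h1 : v = fun i => u ^ n0 * (u ^ (-n0) * v i) := by
    funext i
    rw [← mul_assoc, ← zpow_add₀ hu0]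
    simp
  have h2 : ∀ i, P.Ge (e i) (u ^ (-n0) * v i) := fun i =>
    (P.ge_zpow hu0 hu (-n0)).mul' (hv i) (by omega)
  rw [h1, Wr_mul]
  have h3 : P.Ge (∑ i, (e i - min (e i) q)) (Wr D (fun i => u ^ (-n0) * v i)) := by
    apply Place.Ge.det
    intro σ
    refine Place.Ge.prod Finset.univ _ _ (fun i _ => ?_)
    exact h.iter_reg (he i) (h2 i) q _ (by have := (σ i).2; omega)
  have h4 : P.Ge (n0 * (q + 1 : ℕ)) ((u ^ n0) ^ (q + 1)) := by
    rw [← zpow_natCast, ← zpow_mul]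
    exact P.ge_zpow hu0 hu _
  refine h4.mul' h3 ?_
  rw [show ∑ i, (n0 + e i - min (e i) (q : ℤ)) = ∑ _i : Fin (q + 1), n0 + ∑ i, (e i - min (e i) (q : ℤ)) by
    rw [← Finset.sum_add_distrib]; exact Finset.sum_congr rfl (fun i _ => by ring)]
  rw [Finset.sum_const, Finset.card_univ, Fintype.card_fin, nsmul_eq_mul]
  linarith

/-- constants have order zero at nonstatic places -/
theorem ord_zero_of_const [CharZero L] (h : DGe P D 0) (h' : ¬ ∀ y, P.Ge 1 y → P.Ge 1 (D y))
    {c : E} (hc0 : c ≠ 0) (hc : D c = 0) : P.ord c = 0 := by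
  obtain ⟨u, hu0, hu⟩ := P.exists_unif
  have hug : P.Ge 1 u := (P.ge_iff hu0).2 (by omega)
  -- `D u` is a unit
  have hDu : ¬ P.Ge 1 (D u) := by
    intro h1
    apply h'
    intro y hy
    have hw : P.Ge 0 (y * u ^ (-(1 : ℤ))) := (P.ge_iff_of_unif hu0 hu).1 hy
    have hy' : y = (y * u ^ (-(1 : ℤ))) * u := by
      rw [mul_assoc, zpow_neg_one, inv_mul_cancel₀ hu0, mul_one]
    rw [hy', D.leibniz, smul_eq_mul, smul_eq_mul]
    exact (hw.mul' h1 (by omega)).add (hug.mul' (h _ hw) (by omega))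
  by_contra hn
  set n := P.ord c with hn'
  -- `c = u ^ n z`
  set z := c * u ^ (-n) with hz
  have hz0 : z ≠ 0 := mul_ne_zero hc0 (zpow_ne_zero _ hu0)
  have hzord : P.ord z = 0 := by
    rw [hz, P.ord_mul hc0 (zpow_ne_zero _ hu0), P.ord_zpow, hu]
    omega
  have hcz : c = u ^ n * z := by
    rw [hz, mul_comm c, ← mul_assoc, ← zpow_add₀ hu0]
    simp
  have h1 : D c = u ^ (n - 1) * ((n : E) * z * D u + u * D z) := by
    rw [hcz, D.leibniz, smul_eq_mul, smul_eq_mul, deriv_zpow]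
    have h3 : u ^ n = u ^ (n - 1) * u := by
      rw [← zpow_add_one₀ hu0]; congr 1; omega
    rw [h3]
    ring
  rw [hc] at h1
  have h2 : (n : E) * z * D u + u * D z = 0 :=
    (mul_eq_zero.1 h1.symm).resolve_left (zpow_ne_zero _ hu0)
  have hz1 : P.Ge 0 z := (P.ge_iff hz0).2 (by omega)
  have h3 : P.Ge 1 ((n : E) * z * D u) := by
    rw [eq_neg_of_add_eq_zero_left h2]
    exact (hug.mul' (h z hz1) (by omega)).neg
  apply hDu
  have hnE : ((n : ℤ) : E) = algebraMap L E (n : L) := by simp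
  have hnL : (n : L) ≠ 0 := by exact_mod_cast hn
  have hn0 : (n : E) ≠ 0 := by
    rw [hnE, Ne, map_eq_zero]; exact hnL
  have h4 : P.Ge 0 ((n : E) * z)⁻¹ := by
    rw [P.ge_iff (inv_ne_zero (mul_ne_zero hn0 hz0)), P.ord_inv, P.ord_mul hn0 hz0, hzord, hnE,
      P.ord_const]
    simp
  have h5 : D u = ((n : E) * z)⁻¹ * ((n : E) * z * D u) := by
    rw [← mul_assoc, inv_mul_cancel₀ (mul_ne_zero hn0 hz0), one_mul]
  rw [h5]
  exact h4.mul' h3 (by omega)

end Local

end PGH
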