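import Mathlib
import Pool.Agent.Helper1_PGH.Height
import Pool.Agent.Helper97_PGH.Local

/-! # The counting inequality for circuits -/

namespace PGH

section Omit

variable {E : Type*} [Field E] (D : Derivation ℤ E E)

theorem sum_update {q : ℕ} (v : Fin (q + 1) → E) (w : E) (j : Fin (q + 1)) (F : E → ℤ) :
    ∑ i, F (Function.update v j w i) + F (v j) = ∑ i, F (v i) + F w := by
  classical
  rw [← Finset.add_sum_erase _ _ (Finset.mem_univ j), ← Finset.add_sum_erase _ (fun i => F (v i))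
    (Finset.mem_univ j), Function.update_self]
  have : ∑ i ∈ Finset.univ.erase j, F (Function.update v j w i) =
      ∑ i ∈ Finset.univ.erase j, F (v i) := by
    apply Finset.sum_congr rfl
    intro i hi
    rw [Function.update_of_ne (Finset.ne_of_mem_erase hi)]
  rw [this]
  ring

theorem exists_omit {q : ℕ} (v : Fin (q + 2) → E) (hsum : ∑ i, v i = 0) (j : Fin (q + 2)) :
    ∃ w : Fin (q + 1) → E, (∀ i, ∃ i', w i = v i') ∧
      (Wr D w = Wr D (fun i => v i.succ) ∨ Wr D w = - Wr D (fun i => v i.succ)) ∧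
      ∀ F : E → ℤ, ∑ i, F (w i) + F (v j) = ∑ i, F (v i) := by
  refine Fin.cases ?_ (fun j' => ?_) j
  · refine ⟨fun i => v i.succ, fun i => ⟨_, rfl⟩, Or.inl rfl, ?_⟩
    intro F
    rw [Fin.sum_univ_succ (fun i => F (v i))]
    ring
  · refine ⟨Function.update (fun i => v i.succ) j' (v 0), ?_, Or.inr ?_, ?_⟩
    · intro i
      by_cases hi : i = j'
      · exact ⟨0, by rw [hi, Function.update_self]⟩
      · exact ⟨i.succ, by rw [Function.update_of_ne hi]⟩
    · apply Wr_omit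
      rw [Fin.sum_univ_succ] at hsum
      exact hsum
    · intro F
      rw [sum_update (fun i => v i.succ) (v 0) j' F, Fin.sum_univ_succ (fun i => F (v i))]
      ring

end Omit

section Count

variable {L E : Type*} [Field L] [Field E] [Algebra L E] {D : Derivation ℤ E E}

theorem ord_neg (P : Place L E) (y : E) : P.ord (-y) = P.ord y := by
  unfold Place.ord
  rw [Valuation.map_neg]

theorem local_crude {P : Place L E} {q c : ℕ} (h : DGe P D (-(c : ℤ))) (v : Fin (q + 2) → E)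
    (hv0 : ∀ i, v i ≠ 0) (hsum : ∑ i, v i = 0) (hW : Wr D (fun i => v i.succ) ≠ 0)
    (j : Fin (q + 2)) :
    ∑ i, P.ord (v i) - P.ord (v j) - ((q + 1 : ℕ) : ℤ) * ((q + 1 : ℕ) : ℤ) * (1 + c) ≤
      P.ord (Wr D (fun i => v i.succ)) := by
  obtain ⟨w, hw, hW', hF⟩ := exists_omit D v hsum j
  have h1 := Wr_ge_crude h w (fun i => P.ord (w i)) (fun i => P.ge_ord)
  have h2 : Wr D w ≠ 0 := by
    rcases hW' with h2 | h2
    · rw [h2]; exact hW
    · rw [h2]; exact neg_ne_zero.2 hW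
  rw [P.ge_iff h2] at h1
  have h3 : P.ord (Wr D w) = P.ord (Wr D (fun i => v i.succ)) := by
    rcases hW' with h3 | h3
    · rw [h3]
    · rw [h3, ord_neg]
  have h4 := hF P.ord
  rw [← h3]
  linarith

theorem local_regular {P : Place L E} {q : ℕ} (h : DGe P D 0) (v : Fin (q + 2) → E)
    (hv0 : ∀ i, v i ≠ 0) (hsum : ∑ i, v i = 0) (hW : Wr D (fun i => v i.succ) ≠ 0)
    (j : Fin (q + 2)) (hj : ∀ i, P.ord (v j) ≤ P.ord (v i)) :
    ∑ i, P.ord (v i) - P.ord (v j) - ∑ i, min (P.ord (v i) - P.ord (v j)) q ≤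
      P.ord (Wr D (fun i => v i.succ)) := by
  obtain ⟨w, hw, hW', hF⟩ := exists_omit D v hsum j
  have h1 := Wr_ge_reg h w (P.ord (v j)) (fun i => P.ord (w i) - P.ord (v j)) (fun i => by
    obtain ⟨i', hi'⟩ := hw i
    rw [hi']
    have := hj i'
    omega) (fun i => P.ge_ord.mono (by omega))
  have h2 : Wr D w ≠ 0 := by
    rcases hW' with h2 | h2
    · rw [h2]; exact hW
    · rw [h2]; exact neg_ne_zero.2 hW
  rw [P.ge_iff h2] at h1
  have h3 : P.ord (Wr D w) = P.ord (Wr D (fun i => v i.succ)) := by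
    rcases hW' with h3 | h3
    · rw [h3]
    · rw [h3, ord_neg]
  have h4 := hF (fun y => P.ord (v j) + (P.ord y - P.ord (v j)) - min (P.ord y - P.ord (v j)) q)
  have h5 : ∑ i, (P.ord (v j) + (P.ord (v i) - P.ord (v j)) - min (P.ord (v i) - P.ord (v j)) q) =
      ∑ i, P.ord (v i) - ∑ i, min (P.ord (v i) - P.ord (v j)) q := by
    rw [← Finset.sum_sub_distrib]
    exact Finset.sum_congr rfl (fun i _ => by ring)
  rw [h5] at h4
  have h6 : P.ord (v j) + (P.ord (v j) - P.ord (v j)) - min (P.ord (v j) - P.ord (v j)) (q : ℤ) =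
      P.ord (v j) := by
    rw [sub_self, min_eq_left (by positivity)]; ring
  rw [← h3]
  rw [h6] at h4
  linarith

theorem local_stat {P : Place L E} {q : ℕ} (h : DGe P D 0) (h' : ∀ y, P.Ge 1 y → P.Ge 1 (D y))
    (v : Fin (q + 2) → E)
    (hsum : ∑ i, v i = 0) (hW : Wr D (fun i => v i.succ) ≠ 0) (j : Fin (q + 2)) :
    ∑ i, P.ord (v i) - P.ord (v j) ≤ P.ord (Wr D (fun i => v i.succ)) := by
  obtain ⟨w, hw, hW', hF⟩ := exists_omit D v hsum j
  have h1 := Wr_ge_static h h' w (fun i => P.ord (w i)) (fun i => P.ge_ord)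
  have h2 : Wr D w ≠ 0 := by
    rcases hW' with h2 | h2
    · rw [h2]; exact hW
    · rw [h2]; exact neg_ne_zero.2 hW
  rw [P.ge_iff h2] at h1
  have h3 : P.ord (Wr D w) = P.ord (Wr D (fun i => v i.succ)) := by
    rcases hW' with h3 | h3
    · rw [h3]
    · rw [h3, ord_neg]
  have h4 := hF P.ord
  rw [← h3]
  linarith

variable [IsAlgClosed L] [CharZero L] [FF L E]

theorem count_core {q : ℕ} (v : Fin (q + 2) → E) (W : E) (mu lam : Place L E → ℤ)
    (hlam : ∀ P : Place L E, ∑ i, P.ord (v i) - mu P - lam P ≤ P.ord W)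
    (s : Finset (Place L E)) (hs : ∀ P ∉ s, (∀ i, P.ord (v i) = 0) ∧ P.ord W = 0) :
    - ∑ P ∈ s, mu P ≤ ∑ P ∈ s, lam P := by
  have h1 := sum_ord_eq_zero W s (fun P hP => (hs P hP).2)
  have h2 : ∀ i, ∑ P ∈ s, P.ord (v i) = 0 := fun i =>
    sum_ord_eq_zero (v i) s (fun P hP => (hs P hP).1 i)
  have h3 := Finset.sum_le_sum (fun P (_ : P ∈ s) => hlam P)
  rw [h1, Finset.sum_sub_distrib, Finset.sum_sub_distrib, Finset.sum_comm] at h3
  simp_rw [h2] at h3
  simp only [Finset.sum_const_zero] at h3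
  linarith

/-- `d * min e q ≤ q * e` if `d ∣ e`, `q ≤ d`. -/
theorem min_mul_le {d q : ℕ} {e : ℤ} (he : 0 ≤ e) (hd : (d : ℤ) ∣ e) :
    (d : ℤ) * min e q ≤ q * e := by
  obtain ⟨t, rfl⟩ := hd
  rcases Nat.eq_zero_or_pos d with h0 | h0
  · subst h0; simp
  have hd0 : (0 : ℤ) < d := by exact_mod_cast h0
  have ht : 0 ≤ t := by
    by_contra hneg
    push Not at hneg
    have := mul_neg_of_pos_of_neg hd0 hneg
    omega
  rcases ht.eq_or_lt with h1 | h1
  · subst h1; simp
  · have h2 : (d : ℤ) * min ((d : ℤ) * t) q ≤ (d : ℤ) * q :=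
      mul_le_mul_of_nonneg_left (min_le_right _ _) hd0.le
    have h3 : (d : ℤ) * q * 1 ≤ (d : ℤ) * q * t := mul_le_mul_of_nonneg_left (by omega) (by positivity)
    nlinarith

end Count

end PGH
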