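import Mathlib
import Pool.Agent.Helper97_PGH.Count

/-! # Circuits with diagonal terms: rigidity and bounded heights -/

namespace PGH

section

variable {L E : Type*} [Field L] [Field E] [Algebra L E] [IsAlgClosed L] [CharZero L] [FF L E]
  {D : Derivation ℤ E E}

/-- independence over the constants of all but the first member of a circuit -/
theorem circuit_Wr {q : ℕ} (v : Fin (q + 2) → E)
    (hind : ∀ c : Fin (q + 2) → E, (∀ i, D (c i) = 0) → ∑ i, c i * v i = 0 → (∃ i, c i = 0) → c = 0) :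
    Wr D (fun i => v i.succ) ≠ 0 := by
  apply Wr_ne_zero
  intro c hc hsum
  have h1 := hind (Fin.cons 0 c) (by
    intro i
    refine Fin.cases ?_ (fun j => ?_) i
    · simp
    · simp [hc j]) (by rw [Fin.sum_univ_succ]; simp [hsum]) ⟨0, by simp⟩
  funext i
  have := congrFun h1 i.succ
  simpa using this

omit [IsAlgClosed L] [CharZero L] [FF L E] in
theorem ord_diag (P : Place L E) {α ξ : E} (hα : α ≠ 0) (hξ : ξ ≠ 0) (d : ℕ) :
    P.ord (α * ξ ^ d) = P.ord α + d * P.ord ξ := by
  rw [P.ord_mul hα (pow_ne_zero _ hξ), P.ord_pow]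

theorem exists_support (z : E) : ∃ s : Finset (Place L E), ∀ P, P ∈ s ↔ P.ord z ≠ 0 :=
  (finite_support (L := L) z).exists_finset

open Classical in
theorem core_two {q d : ℕ} (hd : q * (q + 2) < d) (hPL : PresL L D)
    (hD0 : ∀ P : Place L E, DGe P D 0) (α ξ : Fin (q + 2) → E) (hα0 : ∀ i, α i ≠ 0)
    (hξ0 : ∀ i, ξ i ≠ 0) (hα : ∀ i, D (α i) = 0) (hsum : ∑ i, α i * ξ i ^ d = 0)
    (hind : ∀ c : Fin (q + 2) → E, (∀ i, D (c i) = 0) → ∑ i, c i * (α i * ξ i ^ d) = 0 →
      (∃ i, c i = 0) → c = 0)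
    (P₀ : Place L E) (hP₀ : ∀ y, P₀.Ge 1 y → P₀.Ge 1 (D y)) (i j : Fin (q + 2)) (κ : L)
    (hκ0 : κ ≠ 0) (hκ : P₀.Ge 1 (ξ i / ξ j - algebraMap L E κ)) (hDκ : D (algebraMap L E κ) = 0) :
    D (ξ i / ξ j) = 0 := by
  set v : Fin (q + 2) → E := fun i => α i * ξ i ^ d with hv
  have hv0 : ∀ i, v i ≠ 0 := fun i => mul_ne_zero (hα0 i) (pow_ne_zero _ (hξ0 i))
  have hW := circuit_Wr v hind
  set W := Wr D (fun i => v i.succ) with hWdef
  -- the minimal index
  have hJ : ∀ P : Place L E, ∃ j, ∀ i, P.ord (v j) ≤ P.ord (v i) := fun P =>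
    Finite.exists_min (fun i => P.ord (v i))
  choose J hJ using hJ
  set e : Place L E → Fin (q + 2) → ℤ := fun P i => P.ord (v i) - P.ord (v (J P)) with he
  have he0 : ∀ P i, 0 ≤ e P i := fun P i => by
    have := hJ P i
    rw [he]; simp only; omega
  set lam : Place L E → ℤ := fun P => if (∀ y, P.Ge 1 y → P.Ge 1 (D y)) then 0 else
    ∑ i, min (e P i) q with hlamdef
  have hlam : ∀ P : Place L E, ∑ i, P.ord (v i) - P.ord (v (J P)) - lam P ≤ P.ord W := by
    intro P
    by_cases hs : ∀ y, P.Ge 1 y → P.Ge 1 (D y)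
    · have h1 := local_stat (hD0 P) hs v hsum hW (J P)
      have h2 : lam P = 0 := by rw [hlamdef]; simp only; rw [if_pos hs]
      rw [h2]; linarith
    · have h1 := local_regular (hD0 P) v hv0 hsum hW (J P) (hJ P)
      have h2 : lam P = ∑ i, min (e P i) q := by rw [hlamdef]; simp only; rw [if_neg hs]
      rw [h2]; exact h1
  -- the finite set of places
  have hsup := fun z : E => exists_support (L := L) z
  choose S hS using hsup
  set s := Finset.univ.biUnion (fun i => S (v i)) ∪ S W with hsdef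
  have hs : ∀ P ∉ s, (∀ i, P.ord (v i) = 0) ∧ P.ord W = 0 := by
    intro P hP
    rw [hsdef, Finset.mem_union, not_or, Finset.mem_biUnion] at hP
    refine ⟨fun i => ?_, ?_⟩
    · by_contra h0
      exact hP.1 ⟨i, Finset.mem_univ _, (hS _ P).2 h0⟩
    · by_contra h0
      exact hP.2 ((hS _ P).2 h0)
  have hcount := count_core v W (fun P => P.ord (v (J P))) lam hlam s hs
  set H : ℤ := - ∑ P ∈ s, P.ord (v (J P)) with hHdef
  have hH : ∀ i, ∑ P ∈ s, e P i = H := by
    intro i
    rw [he]
    simp only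
    rw [Finset.sum_sub_distrib, sum_ord_eq_zero (v i) s (fun P hP => (hs P hP).1 i)]
    ring
  have hH0 : 0 ≤ H := by
    rw [← hH 0]
    exact Finset.sum_nonneg (fun P _ => he0 P 0)
  have hdlam : ∀ P, (d : ℤ) * lam P ≤ ∑ i, (q : ℤ) * e P i := by
    intro P
    by_cases hst : ∀ y, P.Ge 1 y → P.Ge 1 (D y)
    · have h2 : lam P = 0 := by rw [hlamdef]; simp only; rw [if_pos hst]
      rw [h2, mul_zero]
      exact Finset.sum_nonneg (fun i _ => mul_nonneg (by positivity) (he0 P i))
    · have h2 : lam P = ∑ i, min (e P i) q := by rw [hlamdef]; simp only; rw [if_neg hst]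
      rw [h2, Finset.mul_sum]
      apply Finset.sum_le_sum
      intro i _
      apply min_mul_le (he0 P i)
      have ha : ∀ i, P.ord (α i) = 0 := fun i => ord_zero_of_const (hD0 P) hst (hα0 i) (hα i)
      rw [he]
      simp only [hv]
      rw [ord_diag P (hα0 _) (hξ0 _), ord_diag P (hα0 _) (hξ0 _), ha, ha, zero_add, zero_add,
        ← mul_sub]
      exact dvd_mul_right _ _
  have hH1 : (d : ℤ) * H ≤ (q : ℤ) * (q + 2) * H := by
    calc (d : ℤ) * H ≤ d * ∑ P ∈ s, lam P := mul_le_mul_of_nonneg_left hcount (by positivity)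
      _ = ∑ P ∈ s, (d : ℤ) * lam P := Finset.mul_sum _ _ _
      _ ≤ ∑ P ∈ s, ∑ i, (q : ℤ) * e P i := Finset.sum_le_sum (fun P _ => hdlam P)
      _ = ∑ i : Fin (q + 2), (q : ℤ) * ∑ P ∈ s, e P i := by
          rw [Finset.sum_comm]
          exact Finset.sum_congr rfl (fun i _ => (Finset.mul_sum _ _ _).symm)
      _ = (q : ℤ) * (q + 2) * H := by
          simp_rw [hH]
          rw [Finset.sum_const, Finset.card_univ, Fintype.card_fin, nsmul_eq_mul]
          push_cast
          ring
  have hdZ : (q : ℤ) * (q + 2) < d := by exact_mod_cast hd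
  have hH2 : H = 0 := by nlinarith
  have hzero : ∀ P i, e P i = 0 := by
    intro P i
    by_cases hP : P ∈ s
    · have h1 := (Finset.sum_eq_zero_iff_of_nonneg (fun P _ => he0 P i)).1 ((hH i).trans hH2)
      exact h1 P hP
    · rw [he]
      simp only
      rw [(hs P hP).1 i, (hs P hP).1 _, sub_zero]
  -- the quotient is a constant of `L`
  have hord : ∀ P : Place L E, P.ord (v i / v j) = 0 := by
    intro P
    rw [P.ord_div (hv0 i) (hv0 j)]
    have h1 := hzero P i
    have h2 := hzero P j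
    rw [he] at h1 h2
    simp only at h1 h2
    omega
  obtain ⟨l, hl⟩ := const_of_ge_zero (L := L) (y := v i / v j) (fun P => by
    rw [P.ge_iff (div_ne_zero (hv0 i) (hv0 j)), hord])
  have hchE : CharZero E := charZero_of_injective_algebraMap (algebraMap L E).injective
  have hl0 : algebraMap L E l ≠ 0 := by rw [hl]; exact div_ne_zero (hv0 i) (hv0 j)
  set w := ξ i / ξ j with hw
  have hw0 : w ≠ 0 := div_ne_zero (hξ0 i) (hξ0 j)
  set β := α j / α i with hβ
  have hβ0 : β ≠ 0 := div_ne_zero (hα0 j) (hα0 i)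
  have hDβ : D β = 0 := by
    have h1 : β ∈ constField D := div_mem (hα j) (hα i)
    exact h1
  have hwd : w ^ d = algebraMap L E l * β := by
    rw [hl, hw, hβ, hv]
    simp only
    have := hα0 i
    have := hα0 j
    have := hξ0 i
    have := hξ0 j
    rw [div_pow]
    field_simp
  obtain ⟨l', hl'⟩ := hPL l
  have hDw : (d : E) * w ^ (d - 1) * D w = algebraMap L E l' * β := by
    have h1 := congrArg D hwd
    rw [D.leibniz_pow, D.leibniz, hDβ, hl', smul_zero, zero_add, smul_eq_mul, nsmul_eq_mul,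
      smul_eq_mul] at h1
    rw [mul_assoc, h1]; ring
  have hd1 : 1 ≤ d := by omega
  have hdE : (d : E) ≠ 0 := by exact_mod_cast (by omega : d ≠ 0)
  -- `D w = (l' / (d l)) w`
  have hDw2 : D w = algebraMap L E (l' / (d * l)) * w := by
    have h1 : (d : E) * (algebraMap L E l * β) * D w = algebraMap L E l' * β * w := by
      rw [← hwd, ← hDw]
      have : w ^ d = w ^ (d - 1) * w := by rw [← pow_succ]; congr 1; omega
      rw [this]; ring
    have h2 : (d : E) * algebraMap L E l * D w = algebraMap L E l' * w := by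
      apply mul_right_cancel₀ hβ0
      calc (d : E) * algebraMap L E l * D w * β = (d : E) * (algebraMap L E l * β) * D w := by ring
        _ = algebraMap L E l' * β * w := h1
        _ = _ := by ring
    have e1 : algebraMap L E (l' / (d * l)) = algebraMap L E l' / ((d : E) * algebraMap L E l) := by
      rw [map_div₀, map_mul, map_natCast]
    rw [e1, div_mul_eq_mul_div, eq_div_iff (mul_ne_zero hdE hl0), ← h2]
    ring
  have hDw3 : P₀.Ge 1 (D w) := by
    have h1 := hP₀ _ hκ
    rw [map_sub, hDκ, sub_zero] at h1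
    exact h1
  have hwP : P₀.Ge 0 w⁻¹ := by
    have h1 : P₀.ord w = 0 := by
      have h2 : P₀.Ge 0 w := by
        have h3 := (hκ.mono (by omega : (0 : ℤ) ≤ 1)).add (P₀.ge_const κ)
        simpa using h3
      rw [P₀.ge_iff hw0] at h2
      by_contra h0
      have h3 : P₀.Ge 1 w := by rw [P₀.ge_iff hw0]; omega
      have h4 : P₀.Ge 1 (algebraMap L E κ) := by
        have := h3.sub hκ
        simpa using this
      exact P₀.not_ge_one_const hκ0 h4
    rw [P₀.ge_iff (inv_ne_zero hw0), P₀.ord_inv, h1]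
    simp
  have h0 : l' / (d * l) = 0 := by
    by_contra hne
    apply P₀.not_ge_one_const hne
    have h1 : algebraMap L E (l' / (d * l)) = D w * w⁻¹ := by
      rw [hDw2, mul_assoc, mul_inv_cancel₀ hw0, mul_one]
    rw [h1]
    exact hDw3.mul' hwP (by omega)
  rw [hDw2, h0, map_zero, zero_mul]

/-- the number of zeros and poles is at most twice the height -/
theorem card_support_le (z : E) (s : Finset (Place L E)) (hs : ∀ P ∈ s, P.ord z ≠ 0) :
    s.card ≤ 2 * ht L z := by
  have h1 := sum_poles_le (L := L) z s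
  have h2 := sum_poles_le (L := L) z⁻¹ s
  rw [ht_inv] at h2
  have h3 : (s.card : ℤ) ≤ ∑ P ∈ s, (max 0 (- P.ord z) + max 0 (- P.ord z⁻¹)) := by
    rw [Finset.card_eq_sum_ones]
    push_cast
    apply Finset.sum_le_sum
    intro P hP
    have := hs P hP
    rw [P.ord_inv]
    omega
  rw [Finset.sum_add_distrib] at h3
  have : (s.card : ℤ) ≤ 2 * ht L z := by linarith
  exact_mod_cast this

open Classical in
theorem core_one {q d : ℕ} (hd : q * (q + 2) < d)
    (c : Place L E → ℕ) (sc : Finset (Place L E)) (hsc : ∀ P ∉ sc, c P = 0)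
    (hc : ∀ P, DGe P D (-(c P : ℤ))) (α ξ : Fin (q + 2) → E) (hα0 : ∀ i, α i ≠ 0)
    (hξ0 : ∀ i, ξ i ≠ 0) (B : ℕ) (hB : ∀ i, ht L (α i) ≤ B) (hsum : ∑ i, α i * ξ i ^ d = 0)
    (hind : ∀ c : Fin (q + 2) → E, (∀ i, D (c i) = 0) → ∑ i, c i * (α i * ξ i ^ d) = 0 →
      (∃ i, c i = 0) → c = 0) (i j : Fin (q + 2)) :
    ht L (ξ i / ξ j) ≤ d * (∑ P ∈ sc, (q + 1) * (q + 1) * (1 + c P) +
      (q + 2) * q * ((q + 2) * (2 * B))) + 2 * B := by
  set v : Fin (q + 2) → E := fun i => α i * ξ i ^ d with hv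
  have hv0 : ∀ i, v i ≠ 0 := fun i => mul_ne_zero (hα0 i) (pow_ne_zero _ (hξ0 i))
  have hW := circuit_Wr v hind
  set W := Wr D (fun i => v i.succ) with hWdef
  have hJ : ∀ P : Place L E, ∃ j, ∀ i, P.ord (v j) ≤ P.ord (v i) := fun P =>
    Finite.exists_min (fun i => P.ord (v i))
  choose J hJ using hJ
  set e : Place L E → Fin (q + 2) → ℤ := fun P i => P.ord (v i) - P.ord (v (J P)) with he
  have he0 : ∀ P i, 0 ≤ e P i := fun P i => by
    have := hJ P i
    rw [he]; simp only; omega
  have hsup := fun z : E => exists_support (L := L) z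
  choose S hS using hsup
  set bad : Finset (Place L E) := Finset.univ.biUnion (fun i => S (α i)) with hbad
  have hbadcard : bad.card ≤ (q + 2) * (2 * B) := by
    calc bad.card ≤ ∑ i : Fin (q + 2), (S (α i)).card := Finset.card_biUnion_le
      _ ≤ ∑ _i : Fin (q + 2), 2 * B := by
          apply Finset.sum_le_sum
          intro i _
          exact (card_support_le _ _ (fun P hP => (hS _ P).1 hP)).trans (by have := hB i; omega)
      _ = _ := by rw [Finset.sum_const, Finset.card_univ, Fintype.card_fin, smul_eq_mul]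
  have hnbad : ∀ P ∉ bad, ∀ i, P.ord (α i) = 0 := by
    intro P hP i
    by_contra h0
    apply hP
    rw [hbad, Finset.mem_biUnion]
    exact ⟨i, Finset.mem_univ _, (hS _ P).2 h0⟩
  set l1 : Place L E → ℤ := fun P => if P ∈ sc then
    (((q + 1 : ℕ) : ℤ) * ((q + 1 : ℕ) : ℤ) * (1 + c P)) else 0 with hl1
  set l2 : Place L E → ℤ := fun P => if P ∈ bad then ((q + 2 : ℕ) : ℤ) * q else 0 with hl2
  set l3 : Place L E → ℤ := fun P => if P ∈ sc ∨ P ∈ bad then 0 else ∑ i, min (e P i) q with hl3
  have hl10 : ∀ P, 0 ≤ l1 P := fun P => by rw [hl1]; simp only; split_ifs <;> positivity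
  have hl20 : ∀ P, 0 ≤ l2 P := fun P => by rw [hl2]; simp only; split_ifs <;> positivity
  have hlam : ∀ P : Place L E, ∑ i, P.ord (v i) - P.ord (v (J P)) - (l1 P + l2 P + l3 P) ≤
      P.ord W := by
    intro P
    by_cases hPs : P ∈ sc
    · have h1 := local_crude (hc P) v hv0 hsum hW (J P)
      have h2 : l1 P = ((q + 1 : ℕ) : ℤ) * ((q + 1 : ℕ) : ℤ) * (1 + c P) := by
        rw [hl1]; simp only; rw [if_pos hPs]
      have h3 : l3 P = 0 := by rw [hl3]; simp only; rw [if_pos (Or.inl hPs)]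
      have := hl20 P
      rw [h2, h3]; linarith
    · have hD0 : DGe P D 0 := by
        have := hc P
        rw [hsc P hPs] at this
        simpa using this
      have h1 := local_regular hD0 v hv0 hsum hW (J P) (hJ P)
      by_cases hPb : P ∈ bad
      · have h2 : l2 P = ((q + 2 : ℕ) : ℤ) * q := by rw [hl2]; simp only; rw [if_pos hPb]
        have h3 : l3 P = 0 := by rw [hl3]; simp only; rw [if_pos (Or.inr hPb)]
        have h4 : ∑ i : Fin (q + 2), min (P.ord (v i) - P.ord (v (J P))) (q : ℤ) ≤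
            ((q + 2 : ℕ) : ℤ) * q := by
          calc ∑ i : Fin (q + 2), min (P.ord (v i) - P.ord (v (J P))) (q : ℤ) ≤
              ∑ _i : Fin (q + 2), (q : ℤ) := Finset.sum_le_sum (fun i _ => min_le_right _ _)
            _ = _ := by rw [Finset.sum_const, Finset.card_univ, Fintype.card_fin, nsmul_eq_mul]
        have := hl10 P
        rw [h2, h3]; linarith
      · have h3 : l3 P = ∑ i, min (e P i) q := by
          rw [hl3]; simp only; rw [if_neg (by rw [not_or]; exact ⟨hPs, hPb⟩)]
        have := hl10 P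
        have := hl20 P
        rw [h3]
        have h5 : ∑ i, min (e P i) (q : ℤ) = ∑ i, min (P.ord (v i) - P.ord (v (J P))) (q : ℤ) := rfl
        rw [h5]; linarith
  set s := Finset.univ.biUnion (fun i => S (v i)) ∪ S W with hsdef
  have hs : ∀ P ∉ s, (∀ i, P.ord (v i) = 0) ∧ P.ord W = 0 := by
    intro P hP
    rw [hsdef, Finset.mem_union, not_or, Finset.mem_biUnion] at hP
    refine ⟨fun i => ?_, ?_⟩
    · by_contra h0
      exact hP.1 ⟨i, Finset.mem_univ _, (hS _ P).2 h0⟩
    · by_contra h0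
      exact hP.2 ((hS _ P).2 h0)
  have hcount := count_core v W (fun P => P.ord (v (J P))) (fun P => l1 P + l2 P + l3 P) hlam s hs
  set H : ℤ := - ∑ P ∈ s, P.ord (v (J P)) with hHdef
  have hH : ∀ i, ∑ P ∈ s, e P i = H := by
    intro i
    rw [he]
    simp only
    rw [Finset.sum_sub_distrib, sum_ord_eq_zero (v i) s (fun P hP => (hs P hP).1 i)]
    ring
  have hH0 : 0 ≤ H := by
    rw [← hH 0]
    exact Finset.sum_nonneg (fun P _ => he0 P 0)
  have hsum1 : ∑ P ∈ s, l1 P ≤ ∑ P ∈ sc, (((q + 1 : ℕ) : ℤ) * ((q + 1 : ℕ) : ℤ) * (1 + c P)) := by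
    calc ∑ P ∈ s, l1 P ≤ ∑ P ∈ s ∪ sc, l1 P :=
          Finset.sum_le_sum_of_subset_of_nonneg Finset.subset_union_left (fun P _ _ => hl10 P)
      _ = ∑ P ∈ sc, l1 P := by
          symm
          apply Finset.sum_subset Finset.subset_union_right
          intro P _ hP
          rw [hl1]; simp only; rw [if_neg hP]
      _ = _ := by
          apply Finset.sum_congr rfl
          intro P hP
          rw [hl1]; simp only; rw [if_pos hP]
  have hsum2 : ∑ P ∈ s, l2 P ≤ ((q + 2 : ℕ) : ℤ) * q * (((q + 2) * (2 * B) : ℕ) : ℤ) := by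
    calc ∑ P ∈ s, l2 P ≤ ∑ P ∈ s ∪ bad, l2 P :=
          Finset.sum_le_sum_of_subset_of_nonneg Finset.subset_union_left (fun P _ _ => hl20 P)
      _ = ∑ P ∈ bad, l2 P := by
          symm
          apply Finset.sum_subset Finset.subset_union_right
          intro P _ hP
          rw [hl2]; simp only; rw [if_neg hP]
      _ = ∑ _P ∈ bad, ((q + 2 : ℕ) : ℤ) * q := by
          apply Finset.sum_congr rfl
          intro P hP
          rw [hl2]; simp only; rw [if_pos hP]
      _ = ((q + 2 : ℕ) : ℤ) * q * (bad.card : ℤ) := by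
          rw [Finset.sum_const, nsmul_eq_mul, mul_comm]
      _ ≤ _ := by
          apply mul_le_mul_of_nonneg_left _ (by positivity)
          exact_mod_cast hbadcard
  have hsum3 : (d : ℤ) * ∑ P ∈ s, l3 P ≤ (q : ℤ) * (q + 2) * H := by
    calc (d : ℤ) * ∑ P ∈ s, l3 P = ∑ P ∈ s, (d : ℤ) * l3 P := Finset.mul_sum _ _ _
      _ ≤ ∑ P ∈ s, ∑ i, (q : ℤ) * e P i := by
          apply Finset.sum_le_sum
          intro P _
          by_cases hP : P ∈ sc ∨ P ∈ bad
          · have h3 : l3 P = 0 := by rw [hl3]; simp only; rw [if_pos hP]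
            rw [h3, mul_zero]
            exact Finset.sum_nonneg (fun i _ => mul_nonneg (by positivity) (he0 P i))
          · have h3 : l3 P = ∑ i, min (e P i) q := by rw [hl3]; simp only; rw [if_neg hP]
            rw [h3, Finset.mul_sum]
            apply Finset.sum_le_sum
            intro i _
            apply min_mul_le (he0 P i)
            rw [not_or] at hP
            have ha := hnbad P hP.2
            rw [he]
            simp only [hv]
            rw [ord_diag P (hα0 _) (hξ0 _), ord_diag P (hα0 _) (hξ0 _), ha, ha, zero_add, zero_add,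
              ← mul_sub]
            exact dvd_mul_right _ _
      _ = ∑ i : Fin (q + 2), (q : ℤ) * ∑ P ∈ s, e P i := by
          rw [Finset.sum_comm]
          exact Finset.sum_congr rfl (fun i _ => (Finset.mul_sum _ _ _).symm)
      _ = (q : ℤ) * (q + 2) * H := by
          simp_rw [hH]
          rw [Finset.sum_const, Finset.card_univ, Fintype.card_fin, nsmul_eq_mul]
          push_cast
          ring
  set M : ℕ := ∑ P ∈ sc, (q + 1) * (q + 1) * (1 + c P) + (q + 2) * q * ((q + 2) * (2 * B)) with hM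
  have hMZ : (M : ℤ) = ∑ P ∈ sc, (((q + 1 : ℕ) : ℤ) * ((q + 1 : ℕ) : ℤ) * (1 + c P)) +
      ((q + 2 : ℕ) : ℤ) * q * (((q + 2) * (2 * B) : ℕ) : ℤ) := by
    rw [hM]; push_cast; rfl
  have hHM : H ≤ d * M := by
    have hdZ : (q : ℤ) * (q + 2) + 1 ≤ d := by exact_mod_cast hd
    have h1 : H ≤ ∑ P ∈ s, l1 P + ∑ P ∈ s, l2 P + ∑ P ∈ s, l3 P := by
      rw [← Finset.sum_add_distrib, ← Finset.sum_add_distrib]
      exact hcount
    have hd0 : (0 : ℤ) ≤ d := by positivity
    have h2 : (d : ℤ) * H ≤ d * M + (q : ℤ) * (q + 2) * H := by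
      calc (d : ℤ) * H ≤ d * (∑ P ∈ s, l1 P + ∑ P ∈ s, l2 P + ∑ P ∈ s, l3 P) :=
            mul_le_mul_of_nonneg_left h1 hd0
        _ = d * (∑ P ∈ s, l1 P + ∑ P ∈ s, l2 P) + d * ∑ P ∈ s, l3 P := by ring
        _ ≤ d * M + (q : ℤ) * (q + 2) * H := by
            apply add_le_add _ hsum3
            apply mul_le_mul_of_nonneg_left _ hd0
            rw [hMZ]
            exact add_le_add hsum1 hsum2
    nlinarith
  -- height of the quotient
  have h1 : (ht L (v i / v j) : ℤ) ≤ H := by
    rw [← sum_poles_eq (L := L) (v i / v j) s (fun P hP => by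
      rw [P.ord_div (hv0 i) (hv0 j), (hs P hP).1 i, (hs P hP).1 j, sub_zero]), ← hH j]
    apply Finset.sum_le_sum
    intro P _
    rw [P.ord_div (hv0 i) (hv0 j)]
    have h1 := he0 P i
    have h2 := he0 P j
    rw [he] at h1 h2 ⊢
    simp only at h1 h2 ⊢
    omega
  have h2 : ht L (v i / v j) ≤ d * M := by
    have : (ht L (v i / v j) : ℤ) ≤ ((d * M : ℕ) : ℤ) := by push_cast; linarith
    exact_mod_cast this
  have hd1 : 1 ≤ d := by omega
  have h3 : ht L (ξ i / ξ j) ≤ ht L ((ξ i / ξ j) ^ d) := by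
    have h4 := ht_le_of_pole_le (L := L) {(0 : Fin 1)} (fun _ => (ξ i / ξ j) ^ d) (ξ i / ξ j) (by
      intro P
      rw [Finset.sum_singleton, P.ord_pow]
      have hd1' : (1 : ℤ) ≤ d := by exact_mod_cast hd1
      rcases le_total 0 (P.ord (ξ i / ξ j)) with h | h
      · rw [max_eq_left (by omega)]; exact le_max_left _ _
      · rw [max_eq_right (by omega)]
        refine le_trans ?_ (le_max_right _ _)
        nlinarith)
    simpa using h4
  have h5 : (ξ i / ξ j) ^ d = (v i / v j) * (α j * (α i)⁻¹) := by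
    rw [hv]
    simp only
    have := hα0 i
    have := hα0 j
    have := hξ0 i
    have := hξ0 j
    rw [div_pow]
    field_simp
  rw [h5] at h3
  have h6 := ht_mul_le (L := L) (v i / v j) (α j * (α i)⁻¹)
  have h7 := ht_mul_le (L := L) (α j) (α i)⁻¹
  rw [ht_inv] at h7
  have h8 := hB i
  have h9 := hB j
  omega

end

end PGH
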