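import Mathlib

/-! # Relations and circuits -/

namespace PGH

section Blocks

variable {E ι : Type*} [Field E] [Fintype ι] (S : Subfield E) (y : ι → E)

/-- `c` is a relation with coefficients in `S` -/
def IsRel (c : ι → E) : Prop := (∀ i, c i ∈ S) ∧ ∑ i, c i * y i = 0

/-- `c` is a nonzero relation of minimal support -/
def IsCirc (c : ι → E) : Prop :=
  IsRel S y c ∧ c ≠ 0 ∧
    ∀ c', IsRel S y c' → (∀ i, c i = 0 → c' i = 0) → (∃ i, c i ≠ 0 ∧ c' i = 0) → c' = 0

open Classical in
theorem exists_circ (c : ι → E) (hc : IsRel S y c) (hc0 : c ≠ 0) :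
    ∃ e, IsCirc S y e ∧ ∀ i, c i = 0 → e i = 0 := by
  have key : ∀ (n : ℕ) (c : ι → E), IsRel S y c → c ≠ 0 →
      (Finset.univ.filter (fun i => c i ≠ 0)).card ≤ n →
      ∃ e, IsCirc S y e ∧ ∀ i, c i = 0 → e i = 0 := by
    intro n
    induction n with
    | zero =>
      intro c _ hc0 hcard
      exfalso
      apply hc0
      funext i
      by_contra hi
      have : i ∈ Finset.univ.filter (fun i => c i ≠ 0) := by simpa using hi
      have h2 := Finset.card_pos.2 ⟨i, this⟩
      omega
    | succ n ih =>
      intro c hc hc0 hcard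
      by_cases hmin : ∀ c', IsRel S y c' → (∀ i, c i = 0 → c' i = 0) →
          (∃ i, c i ≠ 0 ∧ c' i = 0) → c' = 0
      · exact ⟨c, ⟨hc, hc0, hmin⟩, fun _ h => h⟩
      · push Not at hmin
        obtain ⟨c', h1, h2, ⟨i0, h3, h4⟩, h5⟩ := hmin
        have h6 : (Finset.univ.filter (fun i => c' i ≠ 0)).card ≤ n := by
          have h7 : Finset.univ.filter (fun i => c' i ≠ 0) ⊂
              Finset.univ.filter (fun i => c i ≠ 0) := by
            rw [Finset.ssubset_iff_of_subset]
            · exact ⟨i0, by simpa using h3, by simpa using h4⟩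
            · intro i hi
              rw [Finset.mem_filter] at hi ⊢
              refine ⟨hi.1, fun h => hi.2 (h2 i h)⟩
          have := Finset.card_lt_card h7
          omega
        obtain ⟨e, he, he2⟩ := ih c' h1 h5 h6
        exact ⟨e, he, fun i hi => he2 i (h2 i hi)⟩
  exact key _ c hc hc0 le_rfl

open Classical in
/-- partial sums of relations over unions of classes vanish -/
theorem blocks (K : ι → Prop)
    (hcirc : ∀ c, IsCirc S y c → ∀ i j, c i ≠ 0 → c j ≠ 0 → (K i ↔ K j))
    (c : ι → E) (hc : IsRel S y c) : ∑ i ∈ Finset.univ.filter K, c i * y i = 0 := by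
  have key : ∀ (n : ℕ) (c : ι → E), IsRel S y c →
      (Finset.univ.filter (fun i => c i ≠ 0)).card ≤ n →
      ∑ i ∈ Finset.univ.filter K, c i * y i = 0 := by
    intro n
    induction n with
    | zero =>
      intro c _ hcard
      apply Finset.sum_eq_zero
      intro i _
      have : c i = 0 := by
        by_contra hi
        have : i ∈ Finset.univ.filter (fun i => c i ≠ 0) := by simpa using hi
        have h2 := Finset.card_pos.2 ⟨i, this⟩
        omega
      rw [this, zero_mul]
    | succ n ih =>
      intro c hc hcard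
      by_cases hc0 : c = 0
      · apply Finset.sum_eq_zero
        intro i _
        rw [hc0, Pi.zero_apply, zero_mul]
      obtain ⟨e, he, hec⟩ := exists_circ S y c hc hc0
      obtain ⟨i0, hi0⟩ : ∃ i, e i ≠ 0 := by
        by_contra hcon
        push Not at hcon
        exact he.2.1 (funext hcon)
      have hci0 : c i0 ≠ 0 := fun h => hi0 (hec i0 h)
      set c' : ι → E := fun i => c i - c i0 / e i0 * e i with hc'
      have hrel' : IsRel S y c' := by
        constructor
        · intro i
          exact sub_mem (hc.1 i) (mul_mem (div_mem (hc.1 i0) (he.1.1 i0)) (he.1.1 i))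
        · have : ∑ i, c' i * y i = ∑ i, c i * y i - c i0 / e i0 * ∑ i, e i * y i := by
            rw [Finset.mul_sum, ← Finset.sum_sub_distrib]
            exact Finset.sum_congr rfl (fun i _ => by rw [hc']; ring)
          rw [this, hc.2, he.1.2, mul_zero, sub_zero]
      have hcard' : (Finset.univ.filter (fun i => c' i ≠ 0)).card ≤ n := by
        have h7 : Finset.univ.filter (fun i => c' i ≠ 0) ⊂
            Finset.univ.filter (fun i => c i ≠ 0) := by
          rw [Finset.ssubset_iff_of_subset]
          · refine ⟨i0, by simpa using hci0, ?_⟩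
            rw [Finset.mem_filter, not_and, not_not]
            intro _
            rw [hc']
            simp only
            rw [div_mul_cancel₀ _ hi0, sub_self]
          · intro i hi
            rw [Finset.mem_filter] at hi ⊢
            refine ⟨hi.1, fun h => hi.2 ?_⟩
            rw [hc']
            simp only
            rw [h, hec i h, mul_zero, sub_zero]
        have := Finset.card_lt_card h7
        omega
      have h1 := ih c' hrel' hcard'
      have h2 : ∑ i ∈ Finset.univ.filter K, e i * y i = 0 := by
        by_cases hK : K i0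
        · rw [← he.1.2]
          apply Finset.sum_subset (Finset.subset_univ _)
          intro i _ hi
          have : e i = 0 := by
            by_contra h3
            apply hi
            rw [Finset.mem_filter]
            exact ⟨Finset.mem_univ _, (hcirc e he i0 i hi0 h3).1 hK⟩
          rw [this, zero_mul]
        · apply Finset.sum_eq_zero
          intro i hi
          rw [Finset.mem_filter] at hi
          have : e i = 0 := by
            by_contra h3
            exact hK ((hcirc e he i0 i hi0 h3).2 hi.2)
          rw [this, zero_mul]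
      have h3 : ∑ i ∈ Finset.univ.filter K, c i * y i =
          ∑ i ∈ Finset.univ.filter K, c' i * y i +
          c i0 / e i0 * ∑ i ∈ Finset.univ.filter K, e i * y i := by
        rw [Finset.mul_sum, ← Finset.sum_add_distrib]
        exact Finset.sum_congr rfl (fun i _ => by rw [hc']; ring)
      rw [h3, h1, h2, mul_zero, add_zero]
  exact key _ c hc le_rfl

/-- the elements of a circuit with at least two members are nonzero -/
theorem IsCirc.y_ne_zero {c : ι → E} (h : IsCirc S y c) {i j : ι} (hi : c i ≠ 0) (hj : c j ≠ 0)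
    (hij : i ≠ j) : y i ≠ 0 := by
  classical
  intro h0
  have h1 := h.2.2 (Pi.single i (c i)) ⟨by
    intro l
    by_cases hl : l = i
    · subst hl; rw [Pi.single_eq_same]; exact h.1.1 l
    · rw [Pi.single_eq_of_ne hl]; exact zero_mem _, by
    rw [Finset.sum_eq_single i]
    · rw [h0, mul_zero]
    · intro l _ hl; rw [Pi.single_eq_of_ne hl, zero_mul]
    · intro hcon; exact absurd (Finset.mem_univ i) hcon⟩ (by
    intro l hl
    by_cases hl' : l = i
    · subst hl'; exact absurd hl hi
    · rw [Pi.single_eq_of_ne hl']) ⟨j, hj, by rw [Pi.single_eq_of_ne (Ne.symm hij)]⟩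
  have h2 := congrFun h1 i
  rw [Pi.single_eq_same] at h2
  exact hi h2

open Classical in
/-- enumeration of a circuit -/
theorem IsCirc.exists_fin {c : ι → E} (h : IsCirc S y c) {i j : ι} (hi : c i ≠ 0) (hj : c j ≠ 0)
    (hij : i ≠ j) : ∃ (q : ℕ) (f : Fin (q + 2) → ι), (∀ a, c (f a) ≠ 0) ∧
      (∀ l, c l ≠ 0 → ∃ a, f a = l) ∧ (∑ a, c (f a) * y (f a) = 0) ∧
      (∀ b : Fin (q + 2) → E, (∀ a, b a ∈ S) → ∑ a, b a * (c (f a) * y (f a)) = 0 →
        (∃ a, b a = 0) → b = 0) ∧
      q + 2 = (Finset.univ.filter (fun l => c l ≠ 0)).card := by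
  set I := Finset.univ.filter (fun l => c l ≠ 0) with hI
  have hmemI : ∀ l, l ∈ I ↔ c l ≠ 0 := fun l => by simp [hI]
  have hcard : 2 ≤ I.card := by
    have h1 : ({i, j} : Finset ι) ⊆ I := by
      intro l hl
      rw [Finset.mem_insert, Finset.mem_singleton] at hl
      rw [hI, Finset.mem_filter]
      rcases hl with rfl | rfl
      · exact ⟨Finset.mem_univ _, hi⟩
      · exact ⟨Finset.mem_univ _, hj⟩
    have := Finset.card_le_card h1
    rwa [Finset.card_pair hij] at this
  obtain ⟨q, hq⟩ : ∃ q, I.card = q + 2 := ⟨I.card - 2, by omega⟩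
  let e : Fin (q + 2) ≃ I := (finCongr hq.symm).trans I.equivFin.symm
  have hsumI : ∀ g : ι → E, (∀ l, c l = 0 → g l = 0) → ∑ a, g (e a) = ∑ l, g l := by
    intro g hg
    rw [Equiv.sum_comp e (fun l : I => g l), Finset.sum_coe_sort I g]
    apply Finset.sum_subset (Finset.subset_univ _)
    intro l _ hl
    apply hg
    by_contra h0
    apply hl
    rw [hI, Finset.mem_filter]
    exact ⟨Finset.mem_univ _, h0⟩
  refine ⟨q, fun a => (e a : ι), ?_, ?_, ?_, ?_, hq.symm⟩
  · intro a
    exact (hmemI _).1 (e a).2
  · intro l hl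
    have hlI : l ∈ I := by rw [hI, Finset.mem_filter]; exact ⟨Finset.mem_univ _, hl⟩
    exact ⟨e.symm ⟨l, hlI⟩, by simp⟩
  · rw [hsumI (fun l => c l * y l) (fun l hl => by rw [hl, zero_mul])]
    exact h.1.2
  · intro b hb hsum hz
    set c' : ι → E := fun l => if hl : l ∈ I then b (e.symm ⟨l, hl⟩) * c l else 0 with hc'
    have hc'e : ∀ a, c' (e a) = b a * c (e a) := by
      intro a
      rw [hc']
      simp only
      rw [dif_pos (e a).2]
      congr 2
      exact e.symm_apply_apply a
    have hc'0 : ∀ l, c l = 0 → c' l = 0 := by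
      intro l hl
      rw [hc']
      simp only
      split_ifs with h1
      · rw [hl, mul_zero]
      · rfl
    have h1 : c' = 0 := by
      apply h.2.2 c' ⟨?_, ?_⟩ hc'0
      · obtain ⟨a, ha⟩ := hz
        refine ⟨e a, (hmemI _).1 (e a).2, ?_⟩
        rw [hc'e, ha, zero_mul]
      · intro l
        rw [hc']
        simp only
        split_ifs with h1
        · exact mul_mem (hb _) (h.1.1 l)
        · exact zero_mem _
      · rw [← hsumI (fun l => c' l * y l) (fun l hl => by rw [hc'0 l hl, zero_mul]), ← hsum]
        exact Finset.sum_congr rfl (fun a _ => by rw [hc'e]; ring)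
    funext a
    have h2 := congrFun h1 (e a)
    rw [hc'e, Pi.zero_apply] at h2
    have h3 : c (e a) ≠ 0 := (hmemI _).1 (e a).2
    exact (mul_eq_zero.1 h2).resolve_right h3

end Blocks

end PGH
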