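import Mathlib
import Pool.Agent.Helper1_PGH.Rel
import Pool.Agent.Helper97_PGH.CoreTwo
import Pool.Agent.Helper97_PGH.Blocks

/-! # Good elements: bounded heights and rigidity -/

open Polynomial

universe u v

namespace PGH

section Ev

variable {k M E : Type*} [Field k] [Field M] [Algebra k M] [Field E] [Algebra k E]
  {R : Subalgebra k M} (φ : R →ₐ[k] E)

open Classical in
/-- evaluation of a homomorphism defined on a subalgebra (zero outside of it) -/
noncomputable def ev (a : M) : E := if h : a ∈ R then φ ⟨a, h⟩ else 0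

theorem ev_mem {a : M} (h : a ∈ R) : ev φ a = φ ⟨a, h⟩ := by unfold ev; rw [dif_pos h]

theorem ev_coe (r : R) : ev φ (r : M) = φ r := by rw [ev_mem φ r.2]

theorem ev_mul {a b : M} (ha : a ∈ R) (hb : b ∈ R) : ev φ (a * b) = ev φ a * ev φ b := by
  rw [ev_mem φ ha, ev_mem φ hb, ev_mem φ (mul_mem ha hb), ← map_mul]; rfl

theorem ev_add {a b : M} (ha : a ∈ R) (hb : b ∈ R) : ev φ (a + b) = ev φ a + ev φ b := by
  rw [ev_mem φ ha, ev_mem φ hb, ev_mem φ (add_mem ha hb), ← map_add]; rfl

theorem ev_one : ev φ 1 = 1 := by rw [ev_mem φ (one_mem R)]; exact map_one φ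

theorem ev_zero : ev φ 0 = 0 := by rw [ev_mem φ (zero_mem R)]; exact map_zero φ

theorem ev_pow {a : M} (ha : a ∈ R) (n : ℕ) : ev φ (a ^ n) = ev φ a ^ n := by
  rw [ev_mem φ ha, ev_mem φ (pow_mem ha n), ← map_pow]; rfl

theorem ev_sum {ι : Type*} (s : Finset ι) (f : ι → M) (h : ∀ i ∈ s, f i ∈ R) :
    ev φ (∑ i ∈ s, f i) = ∑ i ∈ s, ev φ (f i) := by
  classical
  induction s using Finset.induction_on with
  | empty => rw [Finset.sum_empty, Finset.sum_empty, ev_zero]
  | insert a s ha ih =>
    rw [Finset.sum_insert ha, Finset.sum_insert ha, ev_add φ (h a (Finset.mem_insert_self _ _))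
      (sum_mem (fun i hi => h i (Finset.mem_insert_of_mem hi))),
      ih (fun i hi => h i (Finset.mem_insert_of_mem hi))]

theorem ev_ne_zero {a : M} (ha : a ∈ R) (ha' : a⁻¹ ∈ R) (ha0 : a ≠ 0) : ev φ a ≠ 0 := by
  intro h0
  have h1 := ev_mul φ ha ha'
  rw [mul_inv_cancel₀ ha0, ev_one, h0, zero_mul] at h1
  exact one_ne_zero h1

end Ev

/-- heights of the values of `a` are bounded, once the values on `F₀` are fixed -/
def Bdd (k : Type u) {M : Type v} [Field k] [Field M] [Algebra k M] (F₀ T : Set M) (a : M) : Prop :=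
  ∀ (E : Type u) [Field E] [Algebra k E] [FF k E] (ψ : M → E), ∃ B : ℕ, ∀ (R : Subalgebra k M),
    T ⊆ (R : Set M) → ∀ φ : R →ₐ[k] E, (∀ t ∈ T, t ∈ F₀ → ev φ t = ψ t) → ht k (ev φ a) ≤ B

/-- values of `a` are killed by the horizontal derivations which kill the values on `F₀` -/
def Rig (k : Type u) {M : Type v} [Field k] [Field M] [Algebra k M] (F₀ T : Set M) (a : M) : Prop :=
  ∀ (L E : Type u) [Field L] [Field E] [Algebra k L] [Algebra L E] [Algebra k E]
    [IsScalarTower k L E] [IsAlgClosed L] [CharZero L] [FF L E] (R : Subalgebra k M),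
    T ⊆ (R : Set M) → ∀ (φ : R →ₐ[k] E) (D : Derivation ℤ E E), PresL L D →
    (∀ c : k, D (algebraMap k E c) = 0) → (∀ P : Place L E, DGe P D 0) → ∀ (P₀ : Place L E),
    (∀ y, P₀.Ge 1 y → P₀.Ge 1 (D y)) → ∀ (x₀ : R →ₐ[k] k),
    (∀ r, P₀.Ge 1 (φ r - algebraMap k E (x₀ r))) → (∀ t ∈ T, t ∈ F₀ → D (ev φ t) = 0) →
    D (ev φ a) = 0

/-- good elements of `M` over `F₀` -/
def GoodEl (k : Type u) {M : Type v} [Field k] [Field M] [Algebra k M] (F₀ : Set M) (a : M) : Prop :=
  ∃ T : Set M, T.Finite ∧ a ∈ T ∧ Bdd k F₀ T a ∧ Rig k F₀ T a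

theorem GoodEl.base {k : Type u} {M : Type v} [Field k] [Field M] [Algebra k M] {F₀ : Set M} {a : M}
    (ha : a ∈ F₀) : GoodEl k F₀ a := by
  refine ⟨{a}, Set.finite_singleton _, rfl, ?_, ?_⟩
  · intro E _ _ _ ψ
    refine ⟨ht k (ψ a), fun R _ φ h => ?_⟩
    rw [h a rfl ha]
  · intro L E _ _ _ _ _ _ _ _ _ R _ φ D _ hDk _ _ _ _ _ h
    exact h a rfl ha

section Alg

variable {k : Type u} {M : Type v} [Field k] [Field M] [Algebra k M] [IsAlgClosed k] [CharZero k]

theorem GoodEl.const (F₀ : Set M) (c : k) : GoodEl k F₀ (algebraMap k M c) := by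
  refine ⟨{algebraMap k M c}, Set.finite_singleton _, rfl, ?_, ?_⟩
  · intro E _ _ _ _
    refine ⟨0, fun R _ φ _ => ?_⟩
    rw [ev_mem φ (R.algebraMap_mem c)]
    have : φ ⟨algebraMap k M c, R.algebraMap_mem c⟩ = algebraMap k E c := φ.commutes c
    rw [this, ht_const]
  · intro L E _ _ _ _ _ _ _ _ _ R _ φ D _ hDk _ _ _ _ _ _
    rw [ev_mem φ (R.algebraMap_mem c)]
    have : φ ⟨algebraMap k M c, R.algebraMap_mem c⟩ = algebraMap k E c := φ.commutes c
    rw [this, hDk]

/-- elements algebraic over a field generated by good elements are good -/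
theorem GoodEl.of_algebraic {F₀ : Set M} {ι : Type*} [Finite ι] (z : ι → M)
    (hz : ∀ i, GoodEl k F₀ (z i)) {a : M}
    (ha : IsAlgebraic (IntermediateField.adjoin k (Set.range z)) a) : GoodEl k F₀ a := by
  classical
  have := Fintype.ofFinite ι
  obtain ⟨p, hp, hpa⟩ := exists_relation_of_isAlgebraic z ha
  choose T hT hzT hB hR using hz
  set l : M := MvPolynomial.aeval z p.leadingCoeff with hl
  refine ⟨(⋃ i, T i) ∪ {a, l⁻¹}, (Set.finite_iUnion hT).union (Set.toFinite _), Or.inr (Or.inl rfl),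
    ?_, ?_⟩
  · intro E _ _ _ ψ
    have hBE := fun i => hB i E ψ
    choose B hBB using hBE
    refine ⟨cx' p * ∑ i, B i, fun R hTR φ hψ => ?_⟩
    have hTi : ∀ i, T i ⊆ (R : Set M) := fun i =>
      (Set.subset_iUnion T i).trans (Set.subset_union_left.trans hTR)
    have haR : a ∈ R := hTR (Or.inr (Or.inl rfl))
    have hlR : l⁻¹ ∈ R := hTR (Or.inr (Or.inr rfl))
    let zR : ι → R := fun i => ⟨z i, hTi i (hzT i)⟩
    have hcoe : ∀ q : MvPolynomial ι k, ((MvPolynomial.aeval zR q : R) : M) = MvPolynomial.aeval z q :=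
      fun q => MvPolynomial.comp_aeval_apply zR R.val q
    have hev : ∀ i, ev φ (z i) = φ (zR i) := fun i => ev_mem φ _
    have h0 : MvPolynomial.aeval (fun i => φ (zR i)) p.leadingCoeff ≠ 0 := by
      have h1 : MvPolynomial.aeval (fun i => φ (zR i)) p.leadingCoeff =
          φ (MvPolynomial.aeval zR p.leadingCoeff) :=
        (MvPolynomial.comp_aeval_apply zR φ p.leadingCoeff).symm
      rw [h1]
      have h2 : IsUnit (MvPolynomial.aeval zR p.leadingCoeff) := by
        refine IsUnit.of_mul_eq_one ⟨l⁻¹, hlR⟩ ?_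
        apply Subtype.ext
        change ((MvPolynomial.aeval zR p.leadingCoeff : R) : M) * l⁻¹ = 1
        rw [hcoe]
        exact mul_inv_cancel₀ hp
      exact (h2.map φ).ne_zero
    have h1 : (p.map (MvPolynomial.aeval (fun i => φ (zR i))).toRingHom).eval (φ ⟨a, haR⟩) = 0 := by
      have h2 : (p.map (MvPolynomial.aeval zR).toRingHom).eval (⟨a, haR⟩ : R) = 0 := by
        apply Subtype.val_injective
        change R.val _ = ((0 : R) : M)
        rw [Polynomial.eval_map]
        change R.val.toRingHom _ = _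
        rw [Polynomial.hom_eval₂]
        rw [Polynomial.eval_map] at hpa
        rw [ZeroMemClass.coe_zero, ← hpa]
        congr 1
        ext c
        · simp
        · simp [zR]
      have h3 := congrArg φ h2
      rw [map_zero] at h3
      rw [← h3]
      change _ = φ.toRingHom _
      rw [eval_map, eval_map, Polynomial.hom_eval₂]
      congr 1
      ext c
      · simp
      · simp
    rw [ev_mem φ haR]
    refine (ht_root_le' p _ _ h0 h1).trans ?_
    apply Nat.mul_le_mul_left
    apply Finset.sum_le_sum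
    intro i _
    rw [← hev]
    exact hBB i R (hTi i) φ (fun t ht => hψ t (Or.inl (Set.mem_iUnion.2 ⟨i, ht⟩)))
  · intro L E _ _ _ _ _ _ _ _ _ R hTR φ D hPL hDk hD0 P₀ hP₀ x₀ hx₀ hF₀
    have hchE : CharZero E := charZero_of_injective_algebraMap (algebraMap L E).injective
    have hTi : ∀ i, T i ⊆ (R : Set M) := fun i =>
      (Set.subset_iUnion T i).trans (Set.subset_union_left.trans hTR)
    have haR : a ∈ R := hTR (Or.inr (Or.inl rfl))
    have hlR : l⁻¹ ∈ R := hTR (Or.inr (Or.inr rfl))
    let zR : ι → R := fun i => ⟨z i, hTi i (hzT i)⟩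
    have hcoe : ∀ q : MvPolynomial ι k, ((MvPolynomial.aeval zR q : R) : M) = MvPolynomial.aeval z q :=
      fun q => MvPolynomial.comp_aeval_apply zR R.val q
    have hconst : ∀ i, D (φ (zR i)) = 0 := by
      intro i
      have h1 := hR i L E R (hTi i) φ D hPL hDk hD0 P₀ hP₀ x₀ hx₀
        (fun t ht => hF₀ t (Or.inl (Set.mem_iUnion.2 ⟨i, ht⟩)))
      rwa [ev_mem φ (hTi i (hzT i))] at h1
    have h0 : MvPolynomial.aeval (fun i => φ (zR i)) p.leadingCoeff ≠ 0 := by
      have h1 : MvPolynomial.aeval (fun i => φ (zR i)) p.leadingCoeff =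
          φ (MvPolynomial.aeval zR p.leadingCoeff) :=
        (MvPolynomial.comp_aeval_apply zR φ p.leadingCoeff).symm
      rw [h1]
      have h2 : IsUnit (MvPolynomial.aeval zR p.leadingCoeff) := by
        refine IsUnit.of_mul_eq_one ⟨l⁻¹, hlR⟩ ?_
        apply Subtype.ext
        change ((MvPolynomial.aeval zR p.leadingCoeff : R) : M) * l⁻¹ = 1
        rw [hcoe]
        exact mul_inv_cancel₀ hp
      exact (h2.map φ).ne_zero
    rw [ev_mem φ haR]
    apply deriv_zero_of_isAlgebraic_const
    have hmem : ∀ q : MvPolynomial ι k, MvPolynomial.aeval (fun i => φ (zR i)) q ∈ constField D := by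
      intro q
      induction q using MvPolynomial.induction_on with
      | C c => rw [MvPolynomial.aeval_C]; exact hDk c
      | add p q hp hq => rw [map_add]; exact add_mem hp hq
      | mul_X p i hp => rw [map_mul, MvPolynomial.aeval_X]; exact mul_mem hp (hconst i)
    let θ : MvPolynomial ι k →+* constField D :=
      (MvPolynomial.aeval (fun i => φ (zR i))).toRingHom.codRestrict (constField D) hmem
    have hθ : ((algebraMap (constField D) E).comp θ) =
        (MvPolynomial.aeval (fun i => φ (zR i))).toRingHom := by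
      ext c <;> rfl
    refine ⟨p.map θ, ?_, ?_⟩
    · intro h0'
      have h1 : (p.map θ).coeff p.natDegree = 0 := by rw [h0', coeff_zero]
      rw [coeff_map] at h1
      have h2 := congrArg (algebraMap (constField D) E) h1
      rw [map_zero, ← RingHom.comp_apply, hθ] at h2
      exact h0 h2
    · rw [aeval_def, eval₂_map, hθ]
      have h2 : (p.map (MvPolynomial.aeval zR).toRingHom).eval (⟨a, haR⟩ : R) = 0 := by
        apply Subtype.val_injective
        change R.val _ = ((0 : R) : M)
        rw [Polynomial.eval_map]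
        change R.val.toRingHom _ = _
        rw [Polynomial.hom_eval₂]
        rw [Polynomial.eval_map] at hpa
        rw [ZeroMemClass.coe_zero, ← hpa]
        congr 1
        ext c
        · simp
        · simp [zR]
      have h3 := congrArg φ h2
      rw [map_zero] at h3
      rw [← h3]
      change _ = φ.toRingHom _
      rw [eval_map, Polynomial.hom_eval₂]
      congr 1
      ext c
      · simp
      · simp

end Alg

end PGH
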