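import Mathlib
import Pool.Agent.Helper97_PGH.Good

/-! # The diagonal step -/

open Polynomial

universe u v

namespace PGH

section Circ

variable {L E : Type*} [Field L] [Field E] [Algebra L E] [IsAlgClosed L] [CharZero L] [FF L E]
  {D : Derivation ℤ E E} {ι : Type*} [Fintype ι]

open Classical in
/-- rigidity for a circuit of diagonal terms -/
theorem circ_two {s d : ℕ} (hsd : s * (s - 2) < d) (hPL : PresL L D)
    (hD0 : ∀ P : Place L E, DGe P D 0) (γ ζ : ι → E) (hγ : ∀ i, D (γ i) = 0) (hζ : ∀ i, ζ i ≠ 0)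
    (hs : (Finset.univ.filter (fun i => γ i ≠ 0)).card ≤ s) (c : ι → E)
    (hc : IsCirc (constField D) (fun i => γ i * ζ i ^ d) c)
    (P₀ : Place L E) (hP₀ : ∀ y, P₀.Ge 1 y → P₀.Ge 1 (D y)) (i j : ι) (hi : c i ≠ 0) (hj : c j ≠ 0)
    (κ : L) (hκ0 : κ ≠ 0) (hκ : P₀.Ge 1 (ζ i / ζ j - algebraMap L E κ))
    (hDκ : D (algebraMap L E κ) = 0) : D (ζ i / ζ j) = 0 := by
  classical
  by_cases hij : i = j
  · subst hij
    rw [div_self (hζ i)]
    exact D.map_one_eq_zero
  obtain ⟨q, f, hf, hfs, hsum, hind, hq⟩ := hc.exists_fin (constField D) _ hi hj hij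
  have hγ0 : ∀ l, c l ≠ 0 → γ l ≠ 0 := by
    intro l hl h0
    have h1 : ∃ l', c l' ≠ 0 ∧ l ≠ l' := by
      by_cases h2 : l = i
      · exact ⟨j, hj, by rw [h2]; exact hij⟩
      · exact ⟨i, hi, h2⟩
    obtain ⟨l', hl', hne⟩ := h1
    have h2 := hc.y_ne_zero (constField D) _ hl hl' hne
    rw [h0, zero_mul] at h2
    exact h2 rfl
  have hqs : q + 2 ≤ s := by
    rw [hq]
    refine le_trans (Finset.card_le_card ?_) hs
    intro l hl
    rw [Finset.mem_filter] at hl ⊢
    exact ⟨hl.1, hγ0 l hl.2⟩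
  have hqd : q * (q + 2) < d := by
    refine lt_of_le_of_lt ?_ hsd
    calc q * (q + 2) = (q + 2) * (q + 2 - 2) := by rw [Nat.add_sub_cancel]; ring
      _ ≤ s * (s - 2) := Nat.mul_le_mul hqs (by omega)
  obtain ⟨a, rfl⟩ := hfs i hi
  obtain ⟨b, rfl⟩ := hfs j hj
  refine core_two (L := L) (D := D) hqd hPL hD0 (fun a => c (f a) * γ (f a)) (fun a => ζ (f a))
    (fun a => mul_ne_zero (hf a) (hγ0 _ (hf a))) (fun a => hζ _) ?_ ?_ ?_ P₀ hP₀ a b κ hκ0 hκ hDκ
  · intro a
    have h1 : c (f a) * γ (f a) ∈ constField D := mul_mem (hc.1.1 _) (hγ _)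
    exact h1
  · rw [← hsum]
    exact Finset.sum_congr rfl (fun a _ => by ring)
  · intro b hb hsum' hz
    apply hind b hb _ hz
    rw [← hsum']
    exact Finset.sum_congr rfl (fun a _ => by ring)

/-- explicit height bound -/
noncomputable def HB (d s : ℕ) {L E : Type*} [Field L] [Field E] [Algebra L E]
    (c : Place L E → ℕ) (sc : Finset (Place L E)) (B : ℕ) : ℕ :=
  d * (∑ P ∈ sc, (s + 1) * (s + 1) * (1 + c P) + (s + 2) * s * ((s + 2) * (2 * B))) + 2 * B

open Classical in
theorem circ_one {s d : ℕ} (hsd : s * (s - 2) < d)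
    (hconst : ∀ z, D z = 0 → ∃ c : L, algebraMap L E c = z)
    (cp : Place L E → ℕ) (sc : Finset (Place L E)) (hsc : ∀ P ∉ sc, cp P = 0)
    (hcp : ∀ P, DGe P D (-(cp P : ℤ))) (γ ζ : ι → E) (B : ℕ) (hγ : ∀ i, ht L (γ i) ≤ B)
    (hζ : ∀ i, ζ i ≠ 0)
    (hs : (Finset.univ.filter (fun i => γ i ≠ 0)).card ≤ s) (c : ι → E)
    (hc : IsCirc (constField D) (fun i => γ i * ζ i ^ d) c)
    (i j : ι) (hi : c i ≠ 0) (hj : c j ≠ 0) : ht L (ζ i / ζ j) ≤ HB d s cp sc B := by
  classical
  by_cases hij : i = j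
  · subst hij
    rw [div_self (hζ i), ← map_one (algebraMap L E), ht_const]
    exact Nat.zero_le _
  obtain ⟨q, f, hf, hfs, hsum, hind, hq⟩ := hc.exists_fin (constField D) _ hi hj hij
  have hγ0 : ∀ l, c l ≠ 0 → γ l ≠ 0 := by
    intro l hl h0
    have h1 : ∃ l', c l' ≠ 0 ∧ l ≠ l' := by
      by_cases h2 : l = i
      · exact ⟨j, hj, by rw [h2]; exact hij⟩
      · exact ⟨i, hi, h2⟩
    obtain ⟨l', hl', hne⟩ := h1
    have h2 := hc.y_ne_zero (constField D) _ hl hl' hne
    rw [h0, zero_mul] at h2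
    exact h2 rfl
  have hqs : q + 2 ≤ s := by
    rw [hq]
    refine le_trans (Finset.card_le_card ?_) hs
    intro l hl
    rw [Finset.mem_filter] at hl ⊢
    exact ⟨hl.1, hγ0 l hl.2⟩
  have hqd : q * (q + 2) < d := by
    refine lt_of_le_of_lt ?_ hsd
    calc q * (q + 2) = (q + 2) * (q + 2 - 2) := by rw [Nat.add_sub_cancel]; ring
      _ ≤ s * (s - 2) := Nat.mul_le_mul hqs (by omega)
  obtain ⟨a, rfl⟩ := hfs i hi
  obtain ⟨b, rfl⟩ := hfs j hj
  refine (core_one (L := L) (D := D) hqd cp sc hsc hcp (fun a => c (f a) * γ (f a))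
    (fun a => ζ (f a)) (fun a => mul_ne_zero (hf a) (hγ0 _ (hf a))) (fun a => hζ _) B ?_ ?_ ?_
    a b).trans ?_
  · intro a
    refine (ht_mul_le _ _).trans ?_
    obtain ⟨c', hc'⟩ := hconst (c (f a)) (hc.1.1 _)
    rw [← hc', ht_const, zero_add]
    exact hγ _
  · rw [← hsum]
    exact Finset.sum_congr rfl (fun a _ => by ring)
  · intro b hb hsum' hz
    apply hind b hb _ hz
    rw [← hsum']
    exact Finset.sum_congr rfl (fun a _ => by ring)
  · unfold HB
    have hqs' : q ≤ s := by omega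
    gcongr

end Circ

section Diag

variable {k : Type u} {M : Type v} [Field k] [Field M] [Algebra k M] [IsAlgClosed k] [CharZero k]

theorem ht_walk {E : Type*} [Field E] [Algebra k E] [FF k E] {V : Type*} (ζ : V → E)
    (hζ : ∀ i, ζ i ≠ 0) (G : SimpleGraph V) (B : ℕ) (hG : ∀ i j, G.Adj i j → ht k (ζ i / ζ j) ≤ B)
    {i j : V} (p : G.Walk i j) : ht k (ζ i / ζ j) ≤ p.length * B := by
  induction p with
  | nil =>
    rw [div_self (hζ _), ← map_one (algebraMap k E), ht_const]
    exact Nat.zero_le _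
  | @cons a b c hab p ih =>
    have h1 : ζ a / ζ c = (ζ a / ζ b) * (ζ b / ζ c) := by
      have := hζ b
      have := hζ c
      field_simp
    rw [h1, SimpleGraph.Walk.length_cons]
    refine (ht_mul_le _ _).trans ?_
    have := hG a b hab
    nlinarith

open Classical in
theorem diag_good {F₀ : Set M} {N : ℕ} (z : Fin N → M) (hz0 : ∀ i, z i ≠ 0)
    (i0 : Fin N) (hz1 : z i0 = 1)
    (hrel : ∀ A : Finset (Fin N), A.Nonempty → A ≠ Finset.univ → ∃ (s d : ℕ) (c : Fin N → M),
      s * (s - 2) < d ∧ (∀ i, GoodEl k F₀ (c i)) ∧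
      (Finset.univ.filter (fun i => c i ≠ 0)).card ≤ s ∧
      ∑ i, c i * z i ^ d = 0 ∧ ∑ i ∈ A, c i * z i ^ d ≠ 0) (i : Fin N) : GoodEl k F₀ (z i) := by
  choose! s d c hsd hcg hcs hc0 hcA using hrel
  -- the finite set
  have hTex : ∀ (A : Finset (Fin N)) (i : Fin N), ∃ T : Set M, T.Finite ∧
      (A.Nonempty → A ≠ Finset.univ → c A i ∈ T ∧ Bdd k F₀ T (c A i) ∧ Rig k F₀ T (c A i)) := by
    intro A i
    by_cases hA : A.Nonempty ∧ A ≠ Finset.univ
    · obtain ⟨T, h1, h2, h3, h4⟩ := hcg A hA.1 hA.2 i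
      exact ⟨T, h1, fun _ _ => ⟨h2, h3, h4⟩⟩
    · exact ⟨∅, Set.finite_empty, fun h1 h2 => absurd ⟨h1, h2⟩ hA⟩
  choose T hTf hT using hTex
  set T0 : Set M := (⋃ A, ⋃ i, T A i) ∪ (Set.range z ∪ Set.range (fun i => (z i)⁻¹) ∪
    Set.range (fun A : Finset (Fin N) => (∑ i ∈ A, c A i * z i ^ d A)⁻¹) ∪
    Set.range (fun q : Finset (Fin N) × Fin N => (c q.1 q.2)⁻¹)) with hT0
  have hT0f : T0.Finite := by
    apply Set.Finite.union
    · exact Set.finite_iUnion (fun A => Set.finite_iUnion (fun i => hTf A i))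
    · exact ((((Set.finite_range _).union (Set.finite_range _)).union (Set.finite_range _)).union
        (Set.finite_range _))
  have hsub : ∀ A i, T A i ⊆ T0 := fun A i =>
    (Set.subset_iUnion (fun i => T A i) i).trans ((Set.subset_iUnion (fun A => ⋃ i, T A i) A).trans
      Set.subset_union_left)
  have hzT : ∀ i, z i ∈ T0 := fun i => Or.inr (Or.inl (Or.inl (Or.inl ⟨i, rfl⟩)))
  have hzT' : ∀ i, (z i)⁻¹ ∈ T0 := fun i => Or.inr (Or.inl (Or.inl (Or.inr ⟨i, rfl⟩)))
  have hAT : ∀ A, (∑ i ∈ A, c A i * z i ^ d A)⁻¹ ∈ T0 := fun A => Or.inr (Or.inl (Or.inr ⟨A, rfl⟩))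
  have hcT' : ∀ A i, (c A i)⁻¹ ∈ T0 := fun A i => Or.inr (Or.inr ⟨(A, i), rfl⟩)
  refine ⟨T0, hT0f, hzT i, ?_, ?_⟩
  · -- bounded heights
    intro E _ _ _ ψ
    have hch : CharZero E := charZero_of_injective_algebraMap (algebraMap k E).injective
    obtain ⟨t, htr⟩ := FF.exists_transcendental (L := k) (E := E)
    obtain ⟨δ, hδ⟩ := exists_deriv k E htr
    let D : Derivation ℤ E E := δ.restrictScalars ℤ
    have hDk : ∀ c : k, D (algebraMap k E c) = 0 := fun c => δ.map_algebraMap c
    have hPL : PresL k D := fun c => ⟨0, by rw [hDk, map_zero]⟩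
    have hDt : D t ≠ 0 := by
      change δ t ≠ 0
      rw [hδ]; exact one_ne_zero
    have hconst : ∀ w, D w = 0 → ∃ c : k, algebraMap k E c = w := by
      intro w hw
      apply not_transcendental
      intro hwt
      have hal := FF.isAlgebraic hwt
      exact hDt (deriv_zero_of_isAlgebraic_adjoin (AlgHom.id k E) D hDk hw (hal.isAlgebraic t))
    obtain ⟨cp, sc, hsc, hcp⟩ := bounded_poles (L := k) D hPL
    have hBex : ∀ (A : Finset (Fin N)) (i : Fin N), ∃ B : ℕ, A.Nonempty → A ≠ Finset.univ →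
        ∀ (R : Subalgebra k M), T A i ⊆ (R : Set M) → ∀ φ : R →ₐ[k] E,
          (∀ t ∈ T A i, t ∈ F₀ → ev φ t = ψ t) → ht k (ev φ (c A i)) ≤ B := by
      intro A i
      by_cases hA : A.Nonempty ∧ A ≠ Finset.univ
      · obtain ⟨B, hB⟩ := (hT A i hA.1 hA.2).2.1 E ψ
        exact ⟨B, fun _ _ => hB⟩
      · exact ⟨0, fun h1 h2 => absurd ⟨h1, h2⟩ hA⟩
    choose B hB using hBex
    set B0 : ℕ := ∑ A, ∑ i, B A i with hB0
    have hBle : ∀ A i, B A i ≤ B0 := fun A i =>
      (Finset.single_le_sum (f := fun i => B A i) (fun _ _ => Nat.zero_le _) (Finset.mem_univ i)).trans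
        (Finset.single_le_sum (f := fun A => ∑ i, B A i) (fun _ _ => Nat.zero_le _)
          (Finset.mem_univ A))
    set H0 : ℕ := ∑ A, HB (d A) (s A) cp sc B0 with hH0
    have hHle : ∀ A, HB (d A) (s A) cp sc B0 ≤ H0 := fun A =>
      Finset.single_le_sum (f := fun A => HB (d A) (s A) cp sc B0) (fun _ _ => Nat.zero_le _)
        (Finset.mem_univ A)
    refine ⟨N * H0, fun R hTR φ hψ => ?_⟩
    have hzR : ∀ i, z i ∈ R := fun i => hTR (hzT i)
    set ζ : Fin N → E := fun i => ev φ (z i) with hζdef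
    have hζ : ∀ i, ζ i ≠ 0 := fun i => ev_ne_zero φ (hzR i) (hTR (hzT' i)) (hz0 i)
    let G : SimpleGraph (Fin N) :=
      { Adj := fun i j => i ≠ j ∧ ht k (ζ i / ζ j) ≤ H0
        symm := ⟨fun i j h => ⟨h.1.symm, by rw [← inv_div, ht_inv]; exact h.2⟩⟩
        loopless := ⟨fun i h => h.1 rfl⟩ }
    have hreach : ∀ i, G.Reachable i0 i := by
      by_contra hcon
      push Not at hcon
      obtain ⟨i1, hi1⟩ := hcon
      set A : Finset (Fin N) := Finset.univ.filter (fun i => G.Reachable i0 i) with hA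
      have hAne : A.Nonempty := ⟨i0, by rw [hA, Finset.mem_filter]; exact ⟨Finset.mem_univ _,
        SimpleGraph.Reachable.refl _⟩⟩
      have hAu : A ≠ Finset.univ := by
        intro h
        have : i1 ∈ A := by rw [h]; exact Finset.mem_univ _
        rw [hA, Finset.mem_filter] at this
        exact hi1 this.2
      have hcR : ∀ i, c A i ∈ R := fun i => hTR (hsub A i (hT A i hAne hAu).1)
      set γ : Fin N → E := fun i => ev φ (c A i) with hγ
      have hyR : ∀ i, c A i * z i ^ d A ∈ R := fun i => mul_mem (hcR i) (pow_mem (hzR i) (d A))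
      have hy : ∀ i, ev φ (c A i * z i ^ d A) = γ i * ζ i ^ d A := fun i => by
        rw [ev_mul φ (hcR i) (pow_mem (hzR i) (d A)), ev_pow φ (hzR i)]
      have hsum : ∑ i, γ i * ζ i ^ d A = 0 := by
        have h1 := congrArg (ev φ) (hc0 A hAne hAu)
        rw [ev_zero, ev_sum φ _ _ (fun i _ => hyR i)] at h1
        rw [← h1]
        exact Finset.sum_congr rfl (fun i _ => (hy i).symm)
      have h1 := blocks (constField D) (fun i => γ i * ζ i ^ d A) (fun i => G.Reachable i0 i) (by
        intro c' hc' i j hi hj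
        have h2 : G.Reachable i j := by
          by_cases hij : i = j
          · rw [hij]
          · apply SimpleGraph.Adj.reachable
            refine ⟨hij, ?_⟩
            refine (circ_one (hsd A hAne hAu) hconst cp sc hsc hcp γ ζ B0 ?_ hζ ?_ c' hc' i j
              hi hj).trans (hHle A)
            · intro i
              exact (hB A i hAne hAu R ((hsub A i).trans hTR) φ
                (fun t ht => hψ t (hsub A i ht))).trans (hBle A i)
            · refine le_trans (Finset.card_le_card ?_) (hcs A hAne hAu)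
              intro l hl
              rw [Finset.mem_filter] at hl ⊢
              refine ⟨hl.1, fun h0 => hl.2 ?_⟩
              rw [hγ]
              simp only
              rw [h0, ev_zero]
        exact ⟨fun h => h.trans h2, fun h => h.trans h2.symm⟩) (fun _ => 1)
        ⟨fun _ => one_mem _, by simpa using hsum⟩
      have h2 : ev φ (∑ i ∈ A, c A i * z i ^ d A) = 0 := by
        rw [ev_sum φ _ _ (fun i _ => hyR i), ← h1]
        refine Finset.sum_congr ?_ (fun i _ => by rw [hy, one_mul])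
        ext j
        simp only [hA, Finset.mem_filter]
      exact ev_ne_zero φ (sum_mem (fun i _ => hyR i)) (hTR (hAT A)) (hcA A hAne hAu) h2
    have h1 : ζ i0 = 1 := by rw [hζdef]; simp only; rw [hz1, ev_one]
    obtain ⟨p, hp⟩ := (hreach i).symm.exists_isPath
    have h2 := ht_walk ζ hζ G _ (fun i j h => h.2) p
    rw [h1, div_one] at h2
    refine h2.trans ?_
    apply Nat.mul_le_mul_right
    have := hp.length_lt
    rw [Fintype.card_fin] at this
    omega
  · -- rigidity
    intro L E _ _ _ _ _ _ _ _ _ R hTR φ D hPL hDk hD0 P₀ hP₀ x₀ hx₀ hF₀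
    have hzR : ∀ i, z i ∈ R := fun i => hTR (hzT i)
    have hzR' : ∀ i, (z i)⁻¹ ∈ R := fun i => hTR (hzT' i)
    set ζ : Fin N → E := fun i => ev φ (z i) with hζdef
    have hζ : ∀ i, ζ i ≠ 0 := fun i => ev_ne_zero φ (hzR i) (hzR' i) (hz0 i)
    have hζ1 : ζ i0 = 1 := by rw [hζdef]; simp only; rw [hz1, ev_one]
    have hall : ∀ i, D (ζ i) = 0 := by
      by_contra hcon
      push Not at hcon
      obtain ⟨i1, hi1⟩ := hcon
      set A : Finset (Fin N) := Finset.univ.filter (fun i => D (ζ i) = 0) with hA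
      have hAne : A.Nonempty := ⟨i0, by
        rw [hA, Finset.mem_filter]
        exact ⟨Finset.mem_univ _, by rw [hζ1]; exact D.map_one_eq_zero⟩⟩
      have hAu : A ≠ Finset.univ := by
        intro h
        have : i1 ∈ A := by rw [h]; exact Finset.mem_univ _
        rw [hA, Finset.mem_filter] at this
        exact hi1 this.2
      have hcR : ∀ i, c A i ∈ R := fun i => hTR (hsub A i (hT A i hAne hAu).1)
      set γ : Fin N → E := fun i => ev φ (c A i) with hγ
      have hyR : ∀ i, c A i * z i ^ d A ∈ R := fun i => mul_mem (hcR i) (pow_mem (hzR i) (d A))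
      have hy : ∀ i, ev φ (c A i * z i ^ d A) = γ i * ζ i ^ d A := fun i => by
        rw [ev_mul φ (hcR i) (pow_mem (hzR i) (d A)), ev_pow φ (hzR i)]
      have hsum : ∑ i, γ i * ζ i ^ d A = 0 := by
        have h1 := congrArg (ev φ) (hc0 A hAne hAu)
        rw [ev_zero, ev_sum φ _ _ (fun i _ => hyR i)] at h1
        rw [← h1]
        exact Finset.sum_congr rfl (fun i _ => (hy i).symm)
      have h1 := blocks (constField D) (fun i => γ i * ζ i ^ d A) (fun i => D (ζ i) = 0) (by
        intro c' hc' i j hi hj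
        have h2 : D (ζ i / ζ j) = 0 := by
          have hw : z i * (z j)⁻¹ ∈ R := mul_mem (hzR i) (hzR' j)
          have hw' : z j * (z i)⁻¹ ∈ R := mul_mem (hzR j) (hzR' i)
          have hκ0 : x₀ ⟨z i * (z j)⁻¹, hw⟩ ≠ 0 := by
            intro h0
            have h3 : (⟨z i * (z j)⁻¹, hw⟩ : R) * ⟨z j * (z i)⁻¹, hw'⟩ = 1 := by
              apply Subtype.ext
              change z i * (z j)⁻¹ * (z j * (z i)⁻¹) = 1
              have := hz0 i
              have := hz0 j
              field_simp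
            have h4 := congrArg x₀ h3
            rw [map_mul, h0, zero_mul, map_one] at h4
            exact zero_ne_one h4
          have hdiv : ζ i / ζ j = φ ⟨z i * (z j)⁻¹, hw⟩ := by
            rw [← ev_mem φ hw, div_eq_iff (hζ j), ← ev_mul φ hw (hzR j), mul_assoc,
              inv_mul_cancel₀ (hz0 j), mul_one]
          refine circ_two (hsd A hAne hAu) hPL hD0 γ ζ ?_ hζ ?_ c' hc' P₀ hP₀ i j hi hj
            (algebraMap k L (x₀ ⟨z i * (z j)⁻¹, hw⟩)) ?_ ?_ ?_
          · intro i
            exact (hT A i hAne hAu).2.2 L E R ((hsub A i).trans hTR) φ D hPL hDk hD0 P₀ hP₀ x₀ hx₀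
              (fun t ht => hF₀ t (hsub A i ht))
          · refine le_trans (Finset.card_le_card ?_) (hcs A hAne hAu)
            intro l hl
            rw [Finset.mem_filter] at hl ⊢
            refine ⟨hl.1, fun h0 => hl.2 ?_⟩
            rw [hγ]
            simp only
            rw [h0, ev_zero]
          · rw [Ne, map_eq_zero]; exact hκ0
          · rw [hdiv, ← IsScalarTower.algebraMap_apply]
            exact hx₀ _
          · rw [← IsScalarTower.algebraMap_apply]
            exact hDk _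
        have h3 : ζ i ∈ constField D ↔ ζ j ∈ constField D := by
          have h4 : ζ i / ζ j ∈ constField D := h2
          constructor
          · intro h5
            have h6 := div_mem h5 h4
            rwa [div_div_cancel₀ (hζ i)] at h6
          · intro h5
            have h6 := mul_mem h4 h5
            rwa [div_mul_cancel₀ _ (hζ j)] at h6
        exact h3) (fun _ => 1) ⟨fun _ => one_mem _, by simpa using hsum⟩
      have h2 : ev φ (∑ i ∈ A, c A i * z i ^ d A) = 0 := by
        rw [ev_sum φ _ _ (fun i _ => hyR i), ← h1]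
        refine Finset.sum_congr ?_ (fun i _ => by rw [hy, one_mul])
        ext j
        simp only [hA, Finset.mem_filter]
      exact ev_ne_zero φ (sum_mem (fun i _ => hyR i)) (hTR (hAT A)) (hcA A hAne hAu) h2
    exact hall i

end Diag

end PGH
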