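import Mathlib
import Pool.Agent.Helper1_PGH.Defs

/-!
# Definitions for the diagonal towers
-/

open CategoryTheory AlgebraicGeometry

universe u

namespace PGH

/-- A diagonal step from the subfield `F` to the subfield `F'` of `M`: the field `F'` contains `F`
and nonzero elements `x 0, …, x (N - 1)` such that `F'` is algebraic over the field generated by
`F` and the ratios `x i / x j`, and such that, for every nonempty proper subset `A` of
`{0, …, N - 1}`, there is a diagonal relation `∑ i, c i * x i ^ d = 0` with coefficients in `F`,
whose number `s` of nonzero coefficients satisfies `s * (s - 2) < d`, and whose partial sum over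
`A` is not zero. -/
structure DiagStep {M : Type*} [Field M] (F F' : Subfield M) : Prop where
  le : F ≤ F'
  step : ∃ (N : ℕ) (x : Fin N → M), (∀ i, x i ∈ F' ∧ x i ≠ 0) ∧
    (∀ a ∈ F', IsAlgebraic
      (Subfield.closure ((F : Set M) ∪ {w | ∃ i j, w = x i / x j})) a) ∧
    ∀ A : Finset (Fin N), A.Nonempty → A ≠ Finset.univ → ∃ (d : ℕ) (c : Fin N → M),
      (∀ i, c i ∈ F) ∧ Nat.card {i // c i ≠ 0} * (Nat.card {i // c i ≠ 0} - 2) < d ∧
      ∑ i, c i * x i ^ d = 0 ∧ ∑ i ∈ A, c i * x i ^ d ≠ 0

theorem specializes_of_isDominant {X Y : Scheme.{u}} [IrreducibleSpace X] [IrreducibleSpace Y]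
    (g : X ⟶ Y) [IsDominant g] : g (genericPoint X) ⤳ genericPoint Y := by
  rw [specializes_iff_mem_closure]
  have h1 : closure {g (genericPoint X)} = Set.univ := by
    rw [← Set.univ_subset_iff, ← g.denseRange.closure_range]
    refine closure_minimal ?_ isClosed_closure
    rintro _ ⟨y, rfl⟩
    exact (((genericPoint_spec X).specializes trivial).map g.continuous).mem_closure
  rw [h1]
  trivial

/-- The homomorphism of function fields given by a dominant morphism `g : X ⟶ Y`. -/
noncomputable def pullbackField {X Y : Scheme.{u}} [IrreducibleSpace X] [IrreducibleSpace Y]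
    (g : X ⟶ Y) [IsDominant g] : Y.functionField →+* X.functionField :=
  (Y.presheaf.stalkSpecializes (specializes_of_isDominant g) ≫ g.stalkMap (genericPoint X)).hom

end PGH
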