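import Mathlib
import Pool.Agent.Helper97_PGH.TowerDefs
import Pool.Agent.Helper97_PGH.Diag

/-! # Goodness passes up diagonal towers -/

open Polynomial

universe u v

namespace PGH

section

variable {k : Type u} {M : Type v} [Field k] [Field M] [Algebra k M] [IsAlgClosed k] [CharZero k]
  {F₀ : Set M}

theorem good_of_root {S : Set M} (hS : ∀ s ∈ S, GoodEl k F₀ s) {q : Polynomial M} (hq0 : q ≠ 0)
    (hq : ∀ n, q.coeff n ∈ IntermediateField.adjoin k S) {a : M} (ha : q.eval a = 0) :
    GoodEl k F₀ a := by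
  classical
  have h1 : ∀ n, ∃ T : Finset M, (T : Set M) ⊆ S ∧ q.coeff n ∈ IntermediateField.adjoin k (T : Set M) :=
    fun n => IntermediateField.exists_finset_of_mem_adjoin (hq n)
  choose T hTS hT using h1
  let T' : Finset M := q.support.biUnion T
  have hT'S : (T' : Set M) ⊆ S := by
    intro t ht
    obtain ⟨n, -, hn⟩ := Finset.mem_biUnion.1 (Finset.mem_coe.1 ht)
    exact hTS n hn
  have hT' : ∀ n, q.coeff n ∈ IntermediateField.adjoin k (T' : Set M) := by
    intro n
    by_cases hn : n ∈ q.support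
    · apply IntermediateField.adjoin.mono k _ _ _ (hT n)
      exact_mod_cast Finset.subset_biUnion_of_mem T hn
    · rw [notMem_support_iff.1 hn]
      exact zero_mem _
  refine GoodEl.of_algebraic (ι := T') (fun t => (t : M)) (fun t => hS t (hT'S t.2)) ?_
  have hr : Set.range (fun t : T' => (t : M)) = (T' : Set M) := Subtype.range_coe
  rw [hr]
  have h2 : q ∈ lifts (algebraMap (IntermediateField.adjoin k (T' : Set M)) M) := by
    rw [lifts_iff_coeff_lifts]
    intro n
    exact ⟨⟨_, hT' n⟩, rfl⟩
  obtain ⟨p, hp⟩ := (mem_lifts _).1 h2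
  refine ⟨p, ?_, ?_⟩
  · rintro rfl
    rw [Polynomial.map_zero] at hp
    exact hq0 hp.symm
  · rw [aeval_def, ← eval_map, hp, ha]

theorem good_of_isAlgebraic {S : Set M} (hS : ∀ s ∈ S, GoodEl k F₀ s) {a : M}
    (ha : IsAlgebraic (Subfield.closure S) a) : GoodEl k F₀ a := by
  obtain ⟨p, hp0, hp⟩ := ha
  refine good_of_root hS (q := p.map (algebraMap (Subfield.closure S) M)) ?_ ?_ ?_
  · rw [Ne, Polynomial.map_eq_zero_iff (algebraMap (Subfield.closure S) M).injective]
    exact hp0
  · intro n
    rw [coeff_map]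
    have h1 : Subfield.closure S ≤ (IntermediateField.adjoin k S).toSubfield :=
      Subfield.closure_le.2 (IntermediateField.subset_adjoin k S)
    exact h1 (p.coeff n).2
  · rw [eval_map, ← aeval_def]; exact hp

theorem good_of_step {F F' : Subfield M} (h : DiagStep F F') (hF : ∀ a ∈ F, GoodEl k F₀ a) :
    ∀ a ∈ F', GoodEl k F₀ a := by
  classical
  intro a ha
  obtain ⟨N, x, hx, halg, hrel⟩ := h.step
  refine good_of_isAlgebraic ?_ (halg a ha)
  rintro w (hw | ⟨i, j, rfl⟩)
  · exact hF w hw
  · have hN : 0 < N := lt_of_le_of_lt (Nat.zero_le _) i.2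
    let i0 : Fin N := ⟨0, hN⟩
    have hgood : ∀ i, GoodEl k F₀ (x i / x i0) := by
      refine diag_good (fun i => x i / x i0) (fun i => div_ne_zero (hx i).2 (hx i0).2) i0
        (div_self (hx i0).2) ?_
      intro A hA hA'
      obtain ⟨d, c, hc, hs, h0, h1⟩ := hrel A hA hA'
      refine ⟨_, d, c, hs, fun i => hF _ (hc i), ?_, ?_, ?_⟩
      · rw [Nat.card_eq_fintype_card, Fintype.card_subtype]
      · have h2 : ∑ i, c i * (x i / x i0) ^ d = (∑ i, c i * x i ^ d) / x i0 ^ d := by
          rw [Finset.sum_div]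
          exact Finset.sum_congr rfl (fun i _ => by rw [div_pow, mul_div_assoc])
        rw [h2, h0, zero_div]
      · have h2 : ∑ i ∈ A, c i * (x i / x i0) ^ d = (∑ i ∈ A, c i * x i ^ d) / x i0 ^ d := by
          rw [Finset.sum_div]
          exact Finset.sum_congr rfl (fun i _ => by rw [div_pow, mul_div_assoc])
        rw [h2]
        exact div_ne_zero h1 (pow_ne_zero _ (hx i0).2)
    have h2 : x i / x j = (x i / x i0) / (x j / x i0) := by
      have := (hx i0).2
      have := (hx j).2
      field_simp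
    rw [h2]
    refine good_of_isAlgebraic (S := {x i / x i0, x j / x i0}) ?_ ?_
    · rintro s (rfl | rfl)
      · exact hgood i
      · exact hgood j
    · have h3 : (x i / x i0) / (x j / x i0) ∈ Subfield.closure {x i / x i0, x j / x i0} :=
        div_mem (Subfield.subset_closure (Or.inl rfl)) (Subfield.subset_closure (Or.inr rfl))
      exact isAlgebraic_algebraMap (⟨_, h3⟩ : Subfield.closure {x i / x i0, x j / x i0})

theorem good_of_tower {F F' : Subfield M} (h : Relation.ReflTransGen DiagStep F F')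
    (hF : ∀ a ∈ F, GoodEl k F₀ a) : ∀ a ∈ F', GoodEl k F₀ a := by
  induction h with
  | refl => exact hF
  | tail _ h ih => exact good_of_step h ih

end

end PGH
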