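import Mathlib
import Pool.Agent.Helper10_PGH.Scheme
import Pool.Agent.Helper97_PGH.TowerDefs

/-!
# The relative scheme bridge
-/

open CategoryTheory AlgebraicGeometry TopologicalSpace

universe u

namespace PGH

section rel

theorem sec_appLE {X Y : Scheme.{u}} (g : X ⟶ Y) (W : Y.Opens) (V : X.Opens) (e : V ≤ g ⁻¹ᵁ W)
    {R : CommRingCat.{u}} (s : Spec R ⟶ X) (hs : s ⁻¹ᵁ V = ⊤) (hs' : (s ≫ g) ⁻¹ᵁ W = ⊤) :
    g.appLE W V e ≫ sec V s hs = sec W (s ≫ g) hs' := by
  unfold sec
  rw [← Category.assoc, appLE_comp _ _ _ _ _ _ _ hs'.ge]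

theorem pullbackField_germ {X Y : Scheme.{u}} [IrreducibleSpace X] [IrreducibleSpace Y]
    (g : X ⟶ Y) [IsDominant g] (W : Y.Opens) (V : X.Opens) (e : V ≤ g ⁻¹ᵁ W)
    (hY : genericPoint Y ∈ W) (hX : genericPoint X ∈ V) (s : Γ(Y, W)) :
    pullbackField g (Y.presheaf.germ W (genericPoint Y) hY s) =
      X.presheaf.germ V (genericPoint X) hX (g.appLE W V e s) := by
  have hW : g (genericPoint X) ∈ W := e hX
  have h1 : Y.presheaf.germ W (genericPoint Y) hY ≫
      (Y.presheaf.stalkSpecializes (specializes_of_isDominant g) ≫ g.stalkMap (genericPoint X)) =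
      g.appLE W V e ≫ X.presheaf.germ V (genericPoint X) hX := by
    rw [← Category.assoc, TopCat.Presheaf.germ_stalkSpecializes, Scheme.Hom.germ_stalkMap,
      ← X.presheaf.germ_res (homOfLE e) (genericPoint X) hX, ← Category.assoc]
    rfl
  exact congrArg (fun t => t.hom s) h1

theorem mem_of_isDominant {X Y : Scheme.{u}} [IrreducibleSpace X] [IrreducibleSpace Y]
    (g : X ⟶ Y) [IsDominant g] {W : Y.Opens} (hY : genericPoint Y ∈ W) : 
    g (genericPoint X) ∈ W :=
  (specializes_of_isDominant g).mem_open W.isOpen hY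

/-- one open set for finitely many rational functions -/
theorem exists_open_of_finite {Y : Scheme.{u}} [IrreducibleSpace Y] {S : Set Y.functionField}
    (hS : S.Finite) : ∃ (W : Y.Opens) (hW : genericPoint Y ∈ W), ∀ b ∈ S, ∃ s : Γ(Y, W),
      Y.presheaf.germ W (genericPoint Y) hW s = b := by
  induction S, hS using Set.Finite.induction_on with
  | empty => exact ⟨⊤, trivial, fun b hb => absurd hb (Set.notMem_empty b)⟩
  | @insert b S _ _ ih =>
    obtain ⟨W, hW, h⟩ := ih
    obtain ⟨U, hU, s, hs⟩ := Y.presheaf.exists_germ_eq b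
    refine ⟨U ⊓ W, ⟨hU, hW⟩, ?_⟩
    rintro b' (rfl | hb')
    · refine ⟨Y.presheaf.map (homOfLE inf_le_left).op s, ?_⟩
      rw [← hs]
      exact Y.presheaf.germ_res_apply (homOfLE inf_le_left) (genericPoint Y) _ s
    · obtain ⟨t, ht⟩ := h b' hb'
      refine ⟨Y.presheaf.map (homOfLE inf_le_right).op t, ?_⟩
      rw [← ht]
      exact Y.presheaf.germ_res_apply (homOfLE inf_le_right) (genericPoint Y) _ t

end rel

section main

theorem isPGH_of_fields_rel (k : Type u) [Field k] [IsAlgClosed k] [CharZero k] {X Y : Scheme.{u}}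
    (f : X ⟶ Spec (.of k)) [IsIntegral X] [IsSeparated f] [LocallyOfFiniteType f] [QuasiCompact f]
    (q : Y ⟶ Spec (.of k)) [IsIntegral Y] (g : X ⟶ Y) [IsDominant g] (hgq : g ≫ q = f)
    (hY : IsPGH k q)
    (K : Type u) [Field K] [Algebra k K] (e : X.functionField ≃+* K)
    (he : ∀ c, e (constants k f c) = algebraMap k K c)
    (h : ∀ A : Subalgebra k K, A.FG → ∃ T : Set K, T.Finite ∧
      ∀ d ∈ A, d ≠ 0 → T ⊆ (Algebra.adjoin k ((A : Set K) ∪ {d⁻¹}) : Set K) →
      ∀ (E : Type u) [Field E] [Algebra k E] [FF k E] (P : Place k E)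
        (x : Algebra.adjoin k ((A : Set K) ∪ {d⁻¹}) →ₐ[k] k) (ψ : K → E),
        {φ : Algebra.adjoin k ((A : Set K) ∪ {d⁻¹}) →ₐ[k] E |
          (∀ r, P.Ge 1 (φ r - algebraMap k E (x r))) ∧
            ∀ r : Algebra.adjoin k ((A : Set K) ∪ {d⁻¹}),
              (r : K) ∈ T ∩ Set.range (fun b => e (pullbackField g b)) → φ r = ψ r}.Finite) :
    IsPGH k f := by
  classical
  obtain ⟨ZY, hZY, hZYne, hYfin⟩ := hY
  obtain ⟨U, hU, hηU, -⟩ := exists_isAffineOpen_mem_and_subset (X := X) (x := genericPoint X)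
    (U := ⊤) trivial
  obtain ⟨T, hT, hh⟩ := h (subalg e k f he U hηU) (subalg_fg e k f he U hηU hU)
  have hne : Nonempty U := ⟨⟨_, hηU⟩⟩
  have := functionField_isFractionRing_of_isAffineOpen X U hU
  -- the open subset of Y
  have hSfin : {b : Y.functionField | e (pullbackField g b) ∈ T}.Finite :=
    hT.preimage ((e.injective.comp (pullbackField g).injective).injOn)
  obtain ⟨W, hηW, hWs⟩ := exists_open_of_finite hSfin
  have hgW : genericPoint X ∈ g ⁻¹ᵁ W := mem_of_isDominant g hηW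
  obtain ⟨d₁, hd₁W, hd₁η⟩ := hU.exists_basicOpen_le (V := g ⁻¹ᵁ W) ⟨genericPoint X, hgW⟩ hηU
  obtain ⟨d₂, hd₂0, hd₂⟩ := exists_denominator (R := Γ(X, U)) (F := X.functionField)
    (T := e.symm '' T) (hT.image _)
  set d : Γ(X, U) := d₁ * d₂ with hddef
  have hgd₁ : X.presheaf.germ U (genericPoint X) hηU d₁ ≠ 0 := by
    rw [Scheme.mem_basicOpen X d₁ _ hηU] at hd₁η
    exact hd₁η.ne_zero
  have hgd₂ : X.presheaf.germ U (genericPoint X) hηU d₂ ≠ 0 := by
    rw [Ne, map_eq_zero_iff _ (germ_injective_of_isIntegral X (genericPoint X) hηU)]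
    exact hd₂0
  have hgd : X.presheaf.germ U (genericPoint X) hηU d ≠ 0 := by
    rw [hddef, map_mul]
    exact mul_ne_zero hgd₁ hgd₂
  have hηV : genericPoint X ∈ X.basicOpen d := by
    rw [Scheme.mem_basicOpen X d _ hηU]
    exact isUnit_iff_ne_zero.2 hgd
  have hjd : jj e U hηU d ≠ 0 := by
    change e (X.presheaf.germ U (genericPoint X) hηU d) ≠ 0
    rw [Ne, map_eq_zero_iff _ e.injective]
    exact hgd
  set V := X.basicOpen d with hVdef
  have hVW : V ≤ g ⁻¹ᵁ W := by
    rw [hVdef, hddef, Scheme.basicOpen_mul]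
    exact inf_le_left.trans hd₁W
  have hV : IsAffineOpen V := hU.basicOpen d
  have hR := subalg_basicOpen e k f he U hηU hU d hηV
  have hTR : T ⊆ (Algebra.adjoin k ((subalg e k f he U hηU : Set K) ∪ {(jj e U hηU d)⁻¹}) :
      Set K) := by
    intro t ht
    obtain ⟨a, ha⟩ := hd₂ (e.symm t) ⟨t, ht, rfl⟩
    have h1 : jj e U hηU (d₁ * a) = jj e U hηU d * t := by
      have := congrArg e ha
      rw [map_mul, e.apply_symm_apply] at this
      rw [hddef, map_mul, map_mul, mul_assoc]
      congr 1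
    have h2 : t = jj e U hηU (d₁ * a) * (jj e U hηU d)⁻¹ := by
      rw [h1]; field_simp
    have h3 : jj e U hηU (d₁ * a) ∈ Algebra.adjoin k
        ((subalg e k f he U hηU : Set K) ∪ {(jj e U hηU d)⁻¹}) :=
      Algebra.subset_adjoin (Or.inl ⟨d₁ * a, rfl⟩)
    have h4 : (jj e U hηU d)⁻¹ ∈ Algebra.adjoin k
        ((subalg e k f he U hηU : Set K) ∪ {(jj e U hηU d)⁻¹}) :=
      Algebra.subset_adjoin (Or.inr rfl)
    rw [h2]
    exact mul_mem h3 h4
  have hfin := hh (jj e U hηU d) ⟨d, rfl⟩ hjd hTR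
  revert hfin
  generalize hRdef : Algebra.adjoin k ((subalg e k f he U hηU : Set K) ∪ {(jj e U hηU d)⁻¹}) = R
  intro hfin
  rw [hRdef] at hR
  have hmem : ∀ z, jj e V hηV z ∈ R := fun z => by rw [← hR]; exact ⟨z, rfl⟩
  let θ : Γ(X, V) ≃+* R := RingEquiv.ofBijective ((jj e V hηV).codRestrict R hmem) (by
    constructor
    · intro a b hab
      exact jj_inj e V hηV (congrArg Subtype.val hab)
    · rintro ⟨z, hz⟩
      rw [← hR] at hz
      obtain ⟨w, hw⟩ := hz
      exact ⟨w, Subtype.ext hw⟩)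
  have hθ : ∀ c : k, θ (str V k f c) = algebraMap k R c := fun c =>
    Subtype.ext (jj_str e k f he V hηV c)
  have hθ' : ∀ c : k, θ.symm (algebraMap k R c) = str V k f c := fun c => by
    rw [← hθ, θ.symm_apply_apply]
  have hηZ : genericPoint X ∉ g ⁻¹' ZY := by
    intro hcon
    apply hZYne
    rw [← Set.univ_subset_iff]
    have h1 : closure {genericPoint Y} = Set.univ := genericPoint_closure _
    rw [← h1]
    refine closure_minimal ?_ hZY
    rintro _ rfl
    exact hZY.closure_subset_iff.2 (Set.singleton_subset_iff.2 hcon)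
      ((specializes_iff_mem_closure).1 (specializes_of_isDominant g))
  refine ⟨(V : Set X)ᶜ ∪ g ⁻¹' ZY, V.isOpen.isClosed_compl.union (hZY.preimage g.continuous), ?_, ?_⟩
  · intro hcon
    have : genericPoint X ∈ (V : Set X)ᶜ ∪ g ⁻¹' ZY := by rw [hcon]; trivial
    rcases this with h1 | h1
    · exact h1 hηV
    · exact hηZ h1
  intro x hx hxZ' C gC hC c hc
  have hxZ : ∀ p, x p ∉ (V : Set X)ᶜ := fun p hp => hxZ' p (Or.inl hp)
  have := hC.integral
  have := hC.separated
  have := hC.quasiCompact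
  have := hC.smooth
  let _ : Algebra k C.functionField := (constants k gC).toAlgebra
  have hFF : FF k C.functionField := FF.of_curve k gC
  have hxV : x ⁻¹ᵁ V = ⊤ := by
    apply Opens.ext
    apply Set.eq_univ_of_forall
    intro p
    exact not_not.1 (hxZ p)
  let pt : Spec (.of k) := IsLocalRing.closedPoint k
  let y : C := c pt
  let ψ : C.presheaf.stalk y ⟶ CommRingCat.of k := Scheme.stalkClosedPointTo c
  have hcs : Spec.map ψ ≫ C.fromSpecStalk y = c := Scheme.Spec_stalkClosedPointTo_fromSpecStalk c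
  let _ : Algebra k (C.presheaf.stalk y) :=
    (str ⊤ k gC ≫ C.presheaf.germ ⊤ y (mem_top' y)).hom.toAlgebra
  have hspec : genericPoint C ⤳ y := (genericPoint_spec C).specializes trivial
  have hst : IsScalarTower k (C.presheaf.stalk y) C.functionField := by
    apply IsScalarTower.of_algebraMap_eq'
    have h1 : (str ⊤ k gC ≫ C.presheaf.germ ⊤ y (mem_top' y)) ≫ C.presheaf.stalkSpecializes hspec =
        CommRingCat.ofHom (constants k gC) := by
      rw [Category.assoc, TopCat.Presheaf.germ_stalkSpecializes, str_germ ⊤ k gC (mem_top' _)]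
    exact (congrArg CommRingCat.Hom.hom h1).symm
  have hψ : ∀ a : k, ψ.hom (algebraMap k (C.presheaf.stalk y) a) = a := by
    intro a
    have h1 : str ⊤ k gC ≫ sec ⊤ c (pre_top c) = 𝟙 _ :=
      str_sec ⊤ k gC c (pre_top c) _ (by rw [hc]; exact (Spec.map_id _).symm)
    have h2 : sec ⊤ c (pre_top c) = C.presheaf.germ ⊤ y (mem_top' y) ≫ ψ := by
      have h3 := sec_comp ⊤ (C.fromSpecStalk y) (pre_top _) ψ (pre_top _)
      rw [sec_fromSpecStalk ⊤ y (mem_top' y)] at h3
      simp_rw [hcs] at h3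
      exact h3
    rw [h2, ← Category.assoc] at h1
    exact congrArg (fun t => t.hom a) h1
  obtain ⟨P, hP⟩ := exists_place_of_local (k := k) (O := C.presheaf.stalk y)
    (E := C.functionField) ψ.hom hψ
  have hxstr : ∀ a : k, sec V x hxV (str V k f a) = a := fun a =>
    congrArg (fun t => t.hom a) (str_sec V k f x hxV (𝟙 _) (by rw [hx]; exact (Spec.map_id _).symm))
  let xr : R →ₐ[k] k := { (sec V x hxV).hom.comp (θ.symm : R →+* Γ(X, V)) with
    commutes' := fun a => by
      change sec V x hxV (θ.symm (algebraMap k R a)) = a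
      rw [hθ', hxstr] }
  have hxr : ∀ w : Γ(X, V), xr (θ w) = sec V x hxV w := fun w => by
    change sec V x hxV (θ.symm (θ w)) = _
    rw [θ.symm_apply_apply]
  have hF := hfin C.functionField P xr
  -- the maps attached to `h : C ⟶ X`
  have hy : ∀ h : C ⟶ X, c ≫ h = x → h y ∈ V := by
    rintro h rfl
    have : pt ∈ (c ≫ h) ⁻¹ᵁ V := by rw [hxV]; trivial
    exact this
  have hη : ∀ h : C ⟶ X, c ≫ h = x → h (genericPoint C) ∈ V := fun h hh =>
    (hspec.map h.continuous).mem_open V.2 (hy h hh)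
  let σ : ∀ h : C ⟶ X, c ≫ h = x → (Γ(X, V) ⟶ C.presheaf.stalk y) := fun h hh =>
    sec V (C.fromSpecStalk y ≫ h) (preimage_fromSpecStalk h V y (hy h hh))
  let τ : ∀ h : C ⟶ X, c ≫ h = x → (Γ(X, V) ⟶ C.functionField) := fun h hh =>
    sec V (C.fromSpecStalk (genericPoint C) ≫ h)
      (preimage_fromSpecStalk h V (genericPoint C) (hη h hh))
  have hτσ : ∀ h hh, τ h hh = σ h hh ≫ C.presheaf.stalkSpecializes hspec := by
    intro h hh
    have h1 : Spec.map (C.presheaf.stalkSpecializes hspec) ≫ (C.fromSpecStalk y ≫ h) =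
        C.fromSpecStalk (genericPoint C) ≫ h := by
      rw [← Category.assoc, Scheme.SpecMap_stalkSpecializes_fromSpecStalk]
    have h2 := sec_comp V (C.fromSpecStalk y ≫ h) (preimage_fromSpecStalk h V y (hy h hh))
      (C.presheaf.stalkSpecializes hspec) (by
        rw [h1]; exact preimage_fromSpecStalk h V (genericPoint C) (hη h hh))
    simp_rw [h1] at h2
    exact h2
  have hσx : ∀ h hh, sec V x hxV = σ h hh ≫ ψ := by
    intro h hh
    have h1 : Spec.map ψ ≫ (C.fromSpecStalk y ≫ h) = x := by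
      rw [← Category.assoc, hcs, hh]
    have h2 := sec_comp V (C.fromSpecStalk y ≫ h) (preimage_fromSpecStalk h V y (hy h hh)) ψ
      (by rw [h1, hxV])
    simp_rw [h1] at h2
    exact h2
  have hτstr : ∀ h hh, h ≫ f = gC → ∀ a : k, τ h hh (str V k f a) = constants k gC a := by
    intro h hh hg a
    have h1 : (C.fromSpecStalk (genericPoint C) ≫ h) ≫ f =
        Spec.map (CommRingCat.ofHom (constants k gC)) := by
      rw [Category.assoc, hg, comp_generic]
    exact congrArg (fun t => t.hom a) (str_sec V k f _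
      (preimage_fromSpecStalk h V (genericPoint C) (hη h hh)) _ h1)
  let F : ∀ h : {h : C ⟶ X | h ≫ f = gC ∧ c ≫ h = x}, (R →ₐ[k] C.functionField) := fun h =>
    { (τ h.1 h.2.2).hom.comp (θ.symm : R →+* Γ(X, V)) with
      commutes' := fun a => by
        change τ h.1 h.2.2 (θ.symm (algebraMap k R a)) = constants k gC a
        rw [hθ', hτstr _ h.2.2 h.2.1] }
  have hFθ : ∀ h w, F h (θ w) = τ h.1 h.2.2 w := fun h w => by
    change τ h.1 h.2.2 (θ.symm (θ w)) = _
    rw [θ.symm_apply_apply]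
  have hFmem : ∀ h, ∀ r, P.Ge 1 (F h r - algebraMap k C.functionField (xr r)) := by
    intro h r
    obtain ⟨w, rfl⟩ := θ.surjective r
    rw [hFθ, hxr]
    have h1 := hP (σ h.1 h.2.2 w - algebraMap k _ (sec V x hxV w)) (by
      rw [map_sub, hψ, hσx h.1 h.2.2]
      exact sub_self _)
    rw [map_sub, ← IsScalarTower.algebraMap_apply] at h1
    rw [hτσ h.1 h.2.2]
    exact h1
  have hFinj : Function.Injective F := by
    intro h h' heq
    apply Subtype.ext
    have h1 : τ h.1 h.2.2 = τ h'.1 h'.2.2 := by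
      ext w
      have := congrArg (fun t => t (θ w)) heq
      rw [hFθ, hFθ] at this
      exact this
    have h2 := sec_ext V hV _ _ _ _ h1
    have hdom : IsDominant (C.fromSpecStalk (genericPoint C)) := isDominant_generic
    exact ext_of_isDominant_of_isSeparated f (h.2.1.trans h'.2.1.symm)
      (C.fromSpecStalk (genericPoint C)) h2
  -- maps with the same image in `Y`
  have hsame : ∀ h h' : {h : C ⟶ X | h ≫ f = gC ∧ c ≫ h = x}, h.1 ≫ g = h'.1 ≫ g → ∀ r : R,
      (r : K) ∈ T ∩ Set.range (fun b => e (pullbackField g b)) → F h r = F h' r := by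
    intro h h' hhg r hr
    obtain ⟨w, rfl⟩ := θ.surjective r
    rw [hFθ, hFθ]
    obtain ⟨hrT, b, hb⟩ := hr
    obtain ⟨s, hs⟩ := hWs b (by
      change e (pullbackField g b) ∈ T
      have : e (pullbackField g b) = (θ w : K) := hb
      rw [this]
      exact hrT)
    have hw : w = g.appLE W V hVW s := by
      apply germ_injective_of_isIntegral X (genericPoint X) hηV
      apply e.injective
      rw [← pullbackField_germ g W V hVW hηW hηV s, hs]
      exact hb.symm
    have key : ∀ h : {h : C ⟶ X | h ≫ f = gC ∧ c ≫ h = x}, 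
        τ h.1 h.2.2 (g.appLE W V hVW s) = sec W (C.fromSpecStalk (genericPoint C) ≫ (h.1 ≫ g)) 
          (preimage_fromSpecStalk (h.1 ≫ g) W (genericPoint C) (hVW (hη h.1 h.2.2))) s := by
      intro h
      have h1 := sec_appLE g W V hVW (C.fromSpecStalk (genericPoint C) ≫ h.1)
        (preimage_fromSpecStalk h.1 V (genericPoint C) (hη h.1 h.2.2))
        (by rw [Category.assoc]
            exact preimage_fromSpecStalk (h.1 ≫ g) W (genericPoint C) (hVW (hη h.1 h.2.2)))
      have h2 := congrArg (fun t => t.hom s) h1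
      refine Eq.trans h2 ?_
      simp_rw [Category.assoc]
    rw [hw, key h, key h']
    simp_rw [hhg]
  -- conclusion
  have hfinY := hYfin (x ≫ g) (by rw [Category.assoc, hgq, hx]) (fun p hp => hxZ' p (Or.inr hp))
    C gC hC c hc
  let Φ : {h : C ⟶ X | h ≫ f = gC ∧ c ≫ h = x} → {u : C ⟶ Y | u ≫ q = gC ∧ c ≫ u = x ≫ g} :=
    fun h => ⟨h.1 ≫ g, by rw [Category.assoc, hgq]; exact h.2.1, by
      rw [← Category.assoc, h.2.2]⟩
  have hfY := hfinY.to_subtype
  rw [← Set.finite_coe_iff]
  refine Set.finite_univ_iff.1 ?_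
  rw [← Set.preimage_univ (f := Φ)]
  refine Set.Finite.preimage' Set.finite_univ (fun u _ => ?_)
  by_cases hne : ∃ h, Φ h = u
  · obtain ⟨h₀, hh₀⟩ := hne
    let ψ₀ : K → C.functionField := fun t => if ht : t ∈ R then F h₀ ⟨t, ht⟩ else 0
    have hψ₀ : ∀ r : R, ψ₀ r = F h₀ r := fun r => by
      change (if ht : (r : K) ∈ R then F h₀ ⟨r, ht⟩ else 0) = _
      rw [dif_pos r.2]
    refine Set.Finite.of_injOn (f := F) (fun h hh => ?_) hFinj.injOn (hF ψ₀)
    refine ⟨hFmem h, fun r hr => ?_⟩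
    rw [hψ₀]
    refine hsame h h₀ ?_ r hr
    have h1 : Φ h = Φ h₀ := by rw [hh₀]; exact hh
    exact congrArg Subtype.val h1
  · have : Φ ⁻¹' {u} = ∅ := by
      rw [Set.eq_empty_iff_forall_notMem]
      intro h hh
      exact hne ⟨h, hh⟩
    rw [this]
    exact Set.finite_empty

end main

end PGH
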