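import Mathlib
import Pool.Agent.Helper1_PGH.Fin
import Pool.Agent.Helper97_PGH.Good

/-! # Finiteness of pointed homomorphisms when all elements are good -/

open Filter Polynomial
open scoped TensorProduct

universe u v

namespace PGH

section place

variable {k K : Type*} [Field k] [Field K] [Algebra k K] [IsAlgClosed k] [CharZero k] [FF k K]

theorem exists_place_static (P₀ : Place k K) :
    ∃ P : Place (Lst k) (EE K (Lst k) (Kst K)), (∀ (z : ℕ → K)
      (hz : Kst.mk K z ∈ EE K (Lst k) (Kst K)), (∀ n, P₀.Ge 1 (z n)) → P.Ge 1 ⟨Kst.mk K z, hz⟩) ∧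
      ∀ u : K, u ≠ 0 → P₀.ord u = 1 → ∀ y : EE K (Lst k) (Kst K), P.Ge 1 y →
        P.Ge 0 (algebraMap K (EE K (Lst k) (Kst K)) u⁻¹ * y) := by
  let A : ValuationSubring (EE K (Lst k) (Kst K)) := (ultraRing P₀).comap (algebraMap _ (Kst K))
  have hA : ∀ z : EE K (Lst k) (Kst K), z ∈ A ↔ (z : Kst K) ∈ ultraRing P₀ := fun z => Iff.rfl
  obtain ⟨P, hP⟩ := Place.exists_of_valuationSubring (L := Lst k) A (by
    intro c
    obtain ⟨f, rfl⟩ := Lst.mk_surjective c
    rw [hA]
    exact ⟨fun n => algebraMap k K (f n), rfl, Eventually.of_forall (fun n => P₀.ge_const _)⟩) (by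
    intro htop
    obtain ⟨u, hu0, hu⟩ := P₀.exists_unif
    have h1 : algebraMap K (EE K (Lst k) (Kst K)) u⁻¹ ∈ A := by rw [htop]; trivial
    rw [hA] at h1
    obtain ⟨f, hf, hf'⟩ := h1
    rw [EE.coe_K, Kst.algebraMap_eq, Kst.mk_eq] at hf
    obtain ⟨n, h2, h3⟩ := (hf.and hf').exists
    rw [h2] at h3
    change P₀.Ge 0 u⁻¹ at h3
    rw [P₀.ge_iff (inv_ne_zero hu0), P₀.ord_inv, hu] at h3
    omega)
  refine ⟨P, fun z hz hz1 => ?_, fun u hu0 hu y hy => ?_⟩
  · by_cases h0 : (⟨Kst.mk K z, hz⟩ : EE K (Lst k) (Kst K)) = 0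
    · rw [h0]; exact P.ge_zero 1
    · have h1 : P.Ge 0 (⟨Kst.mk K z, hz⟩ : EE K (Lst k) (Kst K)) := by
        rw [hP, hA]
        exact ⟨z, rfl, Eventually.of_forall (fun n => (hz1 n).mono (by omega))⟩
      rw [P.ge_iff h0] at h1 ⊢
      by_contra h2
      have h3 : P.ord (⟨Kst.mk K z, hz⟩ : EE K (Lst k) (Kst K)) = 0 := by omega
      have h4 : P.Ge 0 (⟨Kst.mk K z, hz⟩ : EE K (Lst k) (Kst K))⁻¹ := by
        rw [P.ge_iff (inv_ne_zero h0), P.ord_inv, h3]; simp
      rw [hP, hA] at h4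
      obtain ⟨f, hf, hf'⟩ := h4
      have h5 : Kst.mk K z ≠ 0 := by
        intro h6; apply h0; apply Subtype.ext; exact h6
      have h6 : Kst.mk K (z * f) = Kst.mk K 1 := by
        rw [map_mul, hf, map_one]
        change Kst.mk K z * (Kst.mk K z)⁻¹ = 1
        exact mul_inv_cancel₀ h5
      rw [Kst.mk_eq] at h6
      obtain ⟨n, h7, h8⟩ := (h6.and hf').exists
      rw [Pi.mul_apply, Pi.one_apply] at h7
      have h9 : P₀.Ge 1 (z n * f n) := (hz1 n).mul' h8 (by omega)
      rw [h7, ← map_one (algebraMap k K)] at h9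
      exact P₀.not_ge_one_const one_ne_zero h9
  · by_cases h0 : y = 0
    · rw [h0, mul_zero]; exact P.ge_zero 0
    · have hy0 : P.Ge 0 y := hy.mono (by omega)
      rw [hP, hA] at hy0
      obtain ⟨f, hf, hf'⟩ := hy0
      have hev : ∀ᶠ n in (hyperfilter ℕ : Ultrafilter ℕ), P₀.Ge 1 (f n) := by
        rcases Ultrafilter.em (hyperfilter ℕ : Ultrafilter ℕ) (fun n => P₀.Ge 1 (f n)) with h | h
        · exact h
        · exfalso
          have h1 : P.Ge 0 y⁻¹ := by
            rw [hP, hA]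
            refine ⟨f⁻¹, ?_, ?_⟩
            · change (Kst.mk K f)⁻¹ = _
              rw [hf]
              rfl
            · filter_upwards [h, hf'] with n h1 h2
              rw [Pi.inv_apply]
              by_cases h3 : f n = 0
              · rw [h3, inv_zero]; exact P₀.ge_zero 0
              · rw [P₀.ge_iff (inv_ne_zero h3), P₀.ord_inv]
                rw [P₀.ge_iff h3] at h1 h2
                omega
          rw [P.ge_iff (inv_ne_zero h0), P.ord_inv] at h1
          rw [P.ge_iff h0] at hy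
          omega
      rw [hP, hA]
      refine ⟨fun n => u⁻¹ * f n, ?_, ?_⟩
      · have h1 : Kst.mk K (fun n => u⁻¹ * f n) = Kst.mk K (fun _ => u⁻¹) * Kst.mk K f := by
          rw [← map_mul]; rfl
        rw [h1, hf]
        change _ = ((algebraMap K (EE K (Lst k) (Kst K)) u⁻¹ : EE K (Lst k) (Kst K)) : Kst K) *
          (y : Kst K)
        rw [EE.coe_K, Kst.algebraMap_eq]
        rfl
      · filter_upwards [hev] with n hn
        have h1 : P₀.Ge (-1) u⁻¹ := by
          rw [P₀.ge_iff (inv_ne_zero hu0), P₀.ord_inv, hu]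
        exact h1.mul' hn (by omega)

end place

section fin

variable {k : Type u} [Field k] [IsAlgClosed k] [CharZero k] {M : Type v} [Field M] [Algebra k M]

theorem finite_of_good {F₀ : Set M} (R : Subalgebra k M) {A₀ : Set R} (hfin : A₀.Finite)
    (hgen : GenBy k A₀) (T : M → Set M) (hT : ∀ a ∈ A₀, T a ⊆ (R : Set M))
    (hgood : ∀ a ∈ A₀, Bdd k F₀ (T a) (a : M) ∧ Rig k F₀ (T a) (a : M))
    (K : Type u) [Field K] [Algebra k K] [FF k K] (P₀ : Place k K) (x₀ : R →ₐ[k] k) (ψ : M → K) :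
    {φ : R →ₐ[k] K | (∀ r, P₀.Ge 1 (φ r - algebraMap k K (x₀ r))) ∧
      ∀ a ∈ A₀, ∀ t ∈ T a, t ∈ F₀ → ev φ t = ψ t}.Finite := by
  classical
  by_contra hinf
  have hinf' : {φ : R →ₐ[k] K | (∀ r, P₀.Ge 1 (φ r - algebraMap k K (x₀ r))) ∧
      ∀ a ∈ A₀, ∀ t ∈ T a, t ∈ F₀ → ev φ t = ψ t}.Infinite := hinf
  let φ : ℕ → R →ₐ[k] K := fun n => (hinf'.natEmbedding _ n : R →ₐ[k] K)
  have hφinj : Function.Injective φ := fun a b hab =>
    (hinf'.natEmbedding _).injective (Subtype.ext hab)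
  have hφ : ∀ n r, P₀.Ge 1 (φ n r - algebraMap k K (x₀ r)) := fun n =>
    (hinf'.natEmbedding _ n).2.1
  have hφF : ∀ n, ∀ a ∈ A₀, ∀ t ∈ T a, t ∈ F₀ → ev (φ n) t = ψ t := fun n =>
    (hinf'.natEmbedding _ n).2.2
  have hBex : ∀ a : R, ∃ B : ℕ, a ∈ A₀ → ∀ n, ht k (φ n a) ≤ B := by
    intro a
    by_cases ha : a ∈ A₀
    · obtain ⟨B, hB⟩ := (hgood a ha).1 K ψ
      refine ⟨B, fun _ n => ?_⟩
      have := hB R (hT a ha) (φ n) (hφF n a ha)
      rwa [ev_coe] at this
    · exact ⟨0, fun h => absurd h ha⟩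
  choose B hB using hBex
  let φs : R →ₐ[k] Kst K :=
    { toFun := fun r => Kst.mk K (fun n => φ n r)
      map_one' := by
        rw [← map_one (Kst.mk K)]; congr 1; funext n; exact map_one _
      map_zero' := by
        rw [← map_zero (Kst.mk K)]; congr 1; funext n; exact map_zero _
      map_add' := by
        intro a b
        rw [← map_add (Kst.mk K)]; congr 1; funext n; exact map_add _ _ _
      map_mul' := by
        intro a b
        rw [← map_mul (Kst.mk K)]; congr 1; funext n; exact map_mul _ _ _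
      commutes' := by
        intro c
        rw [Kst.algebraMap_eq]; congr 1; funext n; exact (φ n).commutes c }
  have hφs : ∀ r, φs r = Kst.mk K (fun n => φ n r) := fun r => rfl
  have hmem : ∀ r, φs r ∈ EE K (Lst k) (Kst K) :=
    hgen.mem (fun a ha => mem_EE_of_ht_le _ (B a) (fun n => hB a ha n))
  let ψs : R →ₐ[k] EE K (Lst k) (Kst K) :=
    { toFun := fun r => ⟨φs r, hmem r⟩
      map_one' := by apply Subtype.ext; exact map_one φs
      map_zero' := by apply Subtype.ext; exact map_zero φs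
      map_add' := by intro a b; apply Subtype.ext; exact map_add φs a b
      map_mul' := by intro a b; apply Subtype.ext; exact map_mul φs a b
      commutes' := by intro c; apply Subtype.ext; exact φs.commutes c }
  obtain ⟨P, hP, hPs⟩ := exists_place_static P₀
  have hψP : ∀ r, P.Ge 1 (ψs r - algebraMap k (EE K (Lst k) (Kst K)) (x₀ r)) := by
    intro r
    have h3 : ((ψs r - algebraMap k (EE K (Lst k) (Kst K)) (x₀ r) : EE K (Lst k) (Kst K)) : Kst K) =
        Kst.mk K (fun n => φ n r - algebraMap k K (x₀ r)) := by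
      change φs r - algebraMap k (Kst K) (x₀ r) = _
      rw [hφs, Kst.algebraMap_eq, ← map_sub]
      rfl
    have h4 : Kst.mk K (fun n => φ n r - algebraMap k K (x₀ r)) ∈ EE K (Lst k) (Kst K) := by
      rw [← h3]; exact Subtype.mem _
    have h5 : ψs r - algebraMap k (EE K (Lst k) (Kst K)) (x₀ r) = ⟨_, h4⟩ := Subtype.ext h3
    rw [h5]
    exact hP _ h4 (fun n => hφ n r)
  obtain ⟨w, hw0, hw⟩ := P₀.exists_unif
  have hw1 : P.Ge 1 (algebraMap K (EE K (Lst k) (Kst K)) w) := by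
    have h1 : Kst.mk K (fun _ : ℕ => w) ∈ EE K (Lst k) (Kst K) := by
      have h2 := (algebraMap K (EE K (Lst k) (Kst K)) w).2
      have h3 : ((algebraMap K (EE K (Lst k) (Kst K)) w : EE K (Lst k) (Kst K)) : Kst K) =
        Kst.mk K (fun _ : ℕ => w) := by rw [EE.coe_K, Kst.algebraMap_eq]; rfl
      rwa [h3] at h2
    have h2 : algebraMap K (EE K (Lst k) (Kst K)) w = ⟨_, h1⟩ := by
      apply Subtype.ext
      rw [EE.coe_K, Kst.algebraMap_eq]
      rfl
    rw [h2]
    exact hP _ h1 (fun _ => (P₀.ge_iff hw0).2 hw.ge)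
  have hK : ∀ a ∈ A₀, ∃ κ : K, algebraMap K (EE K (Lst k) (Kst K)) κ = ψs a := by
    intro a ha
    apply EE.mem_K_of_deriv (k := k) mu_ultra_injective
    intro δ D hDK hDL
    have hPL : PresL (Lst k) D := fun l => ⟨δ l, hDL l⟩
    have hhor : ∀ Q : Place (Lst k) (EE K (Lst k) (Kst K)), DGe Q D 0 := fun Q =>
      horizontal (k := k) (K := K) hDK hPL EE.hfrac Q
    have h1 := (hgood a ha).2 (Lst k) (EE K (Lst k) (Kst K)) R (hT a ha) ψs D hPL ?_ hhor P ?_ x₀
      hψP ?_
    · rwa [ev_coe] at h1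
    · intro c
      rw [IsScalarTower.algebraMap_apply k K (EE K (Lst k) (Kst K)), hDK]
    · intro y hy
      have h1 : y = algebraMap K (EE K (Lst k) (Kst K)) w *
          (algebraMap K (EE K (Lst k) (Kst K)) w⁻¹ * y) := by
        rw [← mul_assoc, ← map_mul, mul_inv_cancel₀ hw0, map_one, one_mul]
      rw [h1, Derivation.leibniz, hDK, smul_zero, add_zero, smul_eq_mul]
      exact hw1.mul' (hhor P _ (hPs w hw0 hw y hy)) (by omega)
    · intro t ht ht0
      have htR : t ∈ R := hT a ha ht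
      have h1 : ev ψs t = algebraMap K (EE K (Lst k) (Kst K)) (ψ t) := by
        rw [ev_mem ψs htR]
        apply Subtype.ext
        rw [EE.coe_K, Kst.algebraMap_eq]
        change Kst.mk K (fun n => φ n ⟨t, htR⟩) = _
        congr 1
        funext n
        rw [← ev_mem (φ n) htR]
        exact hφF n a ha t ht ht0
      rw [h1, hDK]
  choose! κ hκ using hK
  have hev : ∀ᶠ n in (hyperfilter ℕ : Ultrafilter ℕ), ∀ a ∈ A₀, φ n a = κ a := by
    rw [eventually_all_finite hfin]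
    intro a ha
    have h3 := congrArg Subtype.val (hκ a ha)
    rw [EE.coe_K, Kst.algebraMap_eq] at h3
    change _ = Kst.mk K (fun n => φ n a) at h3
    rw [Kst.mk_eq] at h3
    filter_upwards [h3] with n hn
    exact hn.symm
  have hinf2 : {n | ∀ a ∈ A₀, φ n a = κ a}.Infinite := by
    intro hf
    exact notMem_hyperfilter_of_finite hf hev
  obtain ⟨n, hn, m, hm, hnm⟩ := hinf2.nontrivial
  apply hnm
  apply hφinj
  apply hgen.ext
  intro a ha
  rw [hn a ha, hm a ha]

/-- the algebra half of the theorem -/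
theorem good_main {F₀ : Set M} (hgood : ∀ a : M, GoodEl k F₀ a) :
    ∀ A : Subalgebra k M, A.FG → ∃ T : Set M, T.Finite ∧
      ∀ d ∈ A, d ≠ 0 → T ⊆ (Algebra.adjoin k ((A : Set M) ∪ {d⁻¹}) : Set M) →
      ∀ (E : Type u) [Field E] [Algebra k E] [FF k E] (P : Place k E)
        (x : Algebra.adjoin k ((A : Set M) ∪ {d⁻¹}) →ₐ[k] k) (ψ : M → E),
        {φ : Algebra.adjoin k ((A : Set M) ∪ {d⁻¹}) →ₐ[k] E |
          (∀ r, P.Ge 1 (φ r - algebraMap k E (x r))) ∧
            ∀ r : Algebra.adjoin k ((A : Set M) ∪ {d⁻¹}), (r : M) ∈ T ∩ F₀ →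
              φ r = ψ r}.Finite := by
  classical
  rintro A ⟨A₀, hA₀⟩
  choose T hTf hTa hTB hTR using hgood
  refine ⟨⋃ a ∈ A₀, T a, A₀.finite_toSet.biUnion (fun a _ => hTf a), ?_⟩
  intro d hd hd0 hTsub E _ _ _ P
  generalize hR : Algebra.adjoin k ((A : Set M) ∪ {d⁻¹}) = R at hTsub ⊢
  intro x₀ ψ
  have hAR : A ≤ R := fun z hz => by rw [← hR]; exact Algebra.subset_adjoin (Or.inl hz)
  have hdR : d⁻¹ ∈ R := by rw [← hR]; exact Algebra.subset_adjoin (Or.inr rfl)
  let A₀R : Set R := {r | (r : M) ∈ A₀}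
  have hA₀R : A₀R.Finite := A₀.finite_toSet.preimage Subtype.val_injective.injOn
  have hA₀A : (A₀ : Set M) ⊆ A := by rw [← hA₀]; exact Algebra.subset_adjoin
  have himg : R.val '' A₀R = A₀ := by
    ext z
    constructor
    · rintro ⟨r, hr, rfl⟩; exact hr
    · intro hz
      exact ⟨⟨z, hAR (hA₀A hz)⟩, hz, rfl⟩
  have hgen : GenBy k A₀R := by
    refine ⟨⟨d, hAR hd⟩, ?_, ⟨d⁻¹, hdR⟩, ?_, ?_⟩
    · have h1 : d ∈ (Algebra.adjoin k A₀R).map R.val := by
        rw [AlgHom.map_adjoin, himg, hA₀]; exact hd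
      obtain ⟨y, hy, hyd⟩ := h1
      have : y = ⟨d, hAR hd⟩ := Subtype.ext hyd
      rw [← this]; exact hy
    · apply Subtype.ext
      exact mul_inv_cancel₀ hd0
    · rw [eq_top_iff]
      intro r _
      have h1 : (r : M) ∈ (Algebra.adjoin k (A₀R ∪ {⟨d⁻¹, hdR⟩})).map R.val := by
        rw [AlgHom.map_adjoin, Set.image_union, himg, Set.image_singleton]
        have h2 : R ≤ Algebra.adjoin k ((A₀ : Set M) ∪ {d⁻¹}) := by
          rw [← hR]
          apply Algebra.adjoin_le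
          rintro z (hz | hz)
          · have h3 : A ≤ Algebra.adjoin k ((A₀ : Set M) ∪ {d⁻¹}) := by
              rw [← hA₀]
              exact Algebra.adjoin_mono Set.subset_union_left
            exact h3 hz
          · exact Algebra.subset_adjoin (Or.inr hz)
        exact h2 r.2
      obtain ⟨y, hy, hyr⟩ := h1
      have : y = r := Subtype.ext hyr
      rw [← this]; exact hy
  have hsub : ∀ a ∈ A₀R, T (a : M) ⊆ (⋃ a ∈ A₀, T a) := fun a ha =>
    Set.subset_biUnion_of_mem (u := fun a => T a) ha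
  refine (finite_of_good (F₀ := F₀) R hA₀R hgen T (fun a ha => (hsub a ha).trans hTsub)
    (fun a _ => ⟨hTB a, hTR a⟩) E P x₀ ψ).subset ?_
  rintro φ ⟨h1, h2⟩
  refine ⟨h1, fun a ha t ht ht0 => ?_⟩
  have htR : t ∈ R := hTsub (hsub a ha ht)
  rw [ev_mem φ htR]
  exact h2 ⟨t, htR⟩ ⟨hsub a ha ht, ht0⟩

end fin

end PGH
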